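import Mathlib
import Pool.Agent.helper68.S2.Flow

/-!
# Sobolev norms on the sphere by sums over words of rotation fields (module N), part 1
-/

set_option autoImplicit false

open MeasureTheory Metric Set Filter
open scoped ContDiff Topology

namespace Pool.Agent.helper68.S2

/-- the sum over the words `w` of length `s` of the inner products of `X^w f` and `X^w g` -/
noncomputable def Mb : ℕ → SS → SS → ℝ
  | 0, f, g => I (f * g)
  | s + 1, f, g => ∑ i : Fin 3, Mb s (X i f) (X i g)

/-- the sum over the words `w` of length `s` of the squared norms of `X^w f` -/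
noncomputable def M (s : ℕ) (f : SS) : ℝ := Mb s f f

/-- the squared Sobolev norm -/
noncomputable def NN (s : ℕ) (f : SS) : ℝ := ∑ k ∈ Finset.range (s + 1), M k f

/-- functions all of whose derivatives are bounded: a constant plus a smooth compactly supported
function -/
def Nice (φ : ℝ → ℝ) : Prop := ContDiff ℝ ∞ φ ∧ ∃ c, HasCompactSupport fun y => φ y - c

theorem Mb_zero (f g : SS) : Mb 0 f g = I (f * g) := rfl
theorem Mb_succ (s : ℕ) (f g : SS) : Mb (s + 1) f g = ∑ i : Fin 3, Mb s (X i f) (X i g) := rfl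
theorem M_zero (f : SS) : M 0 f = I (f * f) := rfl
theorem M_succ (s : ℕ) (f : SS) : M (s + 1) f = ∑ i : Fin 3, M s (X i f) := rfl

theorem Mb_add_left (s : ℕ) (f g h : SS) : Mb s (f + g) h = Mb s f h + Mb s g h := by
  induction s generalizing f g h with
  | zero => rw [Mb_zero, Mb_zero, Mb_zero, add_mul, map_add]
  | succ s ih =>
    simp only [Mb_succ, map_add, ih, Finset.sum_add_distrib]

theorem Mb_comm (s : ℕ) (f g : SS) : Mb s f g = Mb s g f := by
  induction s generalizing f g with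
  | zero => rw [Mb_zero, Mb_zero, mul_comm]
  | succ s ih =>
    simp only [Mb_succ]
    exact Finset.sum_congr rfl fun i _ => ih _ _

theorem Mb_add_right (s : ℕ) (f g h : SS) : Mb s f (g + h) = Mb s f g + Mb s f h := by
  rw [Mb_comm, Mb_add_left, Mb_comm s g, Mb_comm s h]

theorem Mb_smul_left (s : ℕ) (c : ℝ) (f g : SS) : Mb s (c • f) g = c * Mb s f g := by
  induction s generalizing f g with
  | zero => rw [Mb_zero, Mb_zero, smul_mul_assoc, map_smul, smul_eq_mul]
  | succ s ih =>
    simp only [Mb_succ, X_smul, ih, Finset.mul_sum]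

theorem Mb_smul_right (s : ℕ) (c : ℝ) (f g : SS) : Mb s f (c • g) = c * Mb s f g := by
  rw [Mb_comm, Mb_smul_left, Mb_comm]

theorem Mb_neg_left (s : ℕ) (f g : SS) : Mb s (-f) g = - Mb s f g := by
  have h := Mb_smul_left s (-1) f g
  rw [neg_one_smul] at h
  rw [h]
  ring

theorem Mb_neg_right (s : ℕ) (f g : SS) : Mb s f (-g) = - Mb s f g := by
  rw [Mb_comm, Mb_neg_left, Mb_comm]

theorem M0_nonneg (f : SS) : 0 ≤ I (f * f) := I_nonneg fun p => mul_self_nonneg (f p)

theorem M_nonneg (s : ℕ) (f : SS) : 0 ≤ M s f := by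
  induction s generalizing f with
  | zero => exact M0_nonneg f
  | succ s ih =>
    rw [M_succ]
    exact Finset.sum_nonneg fun i _ => ih _

theorem NN_nonneg (s : ℕ) (f : SS) : 0 ≤ NN s f := Finset.sum_nonneg fun k _ => M_nonneg k f

theorem M_le_NN {k s : ℕ} (h : k ≤ s) (f : SS) : M k f ≤ NN s f := by
  unfold NN
  exact Finset.single_le_sum (f := fun k => M k f) (fun k _ => M_nonneg k f)
    (Finset.mem_range.mpr (by omega))

theorem NN_mono {k s : ℕ} (h : k ≤ s) (f : SS) : NN k f ≤ NN s f := by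
  unfold NN
  apply Finset.sum_le_sum_of_subset_of_nonneg
  · intro j hj
    rw [Finset.mem_range] at hj ⊢
    omega
  · intro j _ _
    exact M_nonneg j f

theorem NN_succ (s : ℕ) (f : SS) : NN (s + 1) f = M 0 f + ∑ i : Fin 3, NN s (X i f) := by
  unfold NN
  rw [Finset.sum_range_succ' (fun k => M k f) (s + 1), add_comm]
  congr 1
  rw [Finset.sum_comm]
  rfl

theorem NN_zero (f : SS) : NN 0 f = M 0 f := by
  unfold NN
  simp

theorem NN_X_le (s : ℕ) (f : SS) (i : Fin 3) : NN s (X i f) ≤ NN (s + 1) f := by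
  rw [NN_succ]
  have h1 := Finset.single_le_sum (f := fun i => NN s (X i f)) (fun i _ => NN_nonneg s (X i f))
    (Finset.mem_univ i)
  have h2 := M_nonneg 0 f
  linarith

/-- integration by parts -/
theorem Mb_succ' (s : ℕ) (f g : SS) : Mb (s + 1) f g = - Mb s (Lap f) g := by
  induction s generalizing f g with
  | zero =>
    rw [Mb_succ, Mb_zero, Lap_eq, Fin.sum_univ_three, Mb_zero, Mb_zero, Mb_zero,
      ibp' 0 (X 0 f) g, ibp' 1 (X 1 f) g, ibp' 2 (X 2 f) g, add_mul, add_mul, map_add, map_add]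
    ring
  | succ s ih =>
    rw [Mb_succ, Mb_succ, ← Finset.sum_neg_distrib]
    apply Finset.sum_congr rfl
    intro i _
    rw [ih, Lap_X]

theorem M_Lap (s : ℕ) (f : SS) : M s (Lap f) = M (s + 2) f := by
  unfold M
  rw [Mb_succ' (s + 1), Mb_comm (s + 1) (Lap f) f, Mb_succ' s f (Lap f), neg_neg]

theorem Mb_le (s : ℕ) (f g : SS) : |Mb s f g| ≤ √(M s f) * √(M s g) := by
  have key : ∀ a b : ℝ, 0 ≤ a ^ 2 * M s f + 2 * (a * b) * Mb s f g + b ^ 2 * M s g := by
    intro a b
    have h := M_nonneg s (a • f + b • g)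
    unfold M at h
    rw [Mb_add_left, Mb_add_right, Mb_add_right, Mb_smul_left, Mb_smul_left, Mb_smul_left,
      Mb_smul_left, Mb_smul_right, Mb_smul_right, Mb_smul_right, Mb_smul_right, Mb_comm s g f] at h
    unfold M
    linarith
  have hf := M_nonneg s f
  have hg := M_nonneg s g
  rw [← Real.sqrt_mul hf]
  apply Real.abs_le_sqrt
  by_cases hz : M s f = 0
  · by_cases hz2 : Mb s f g = 0
    · rw [hz2, hz]
      simp
    · exfalso
      have h2 := key (-(M s g + 1) / (Mb s f g)) 1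
      rw [hz] at h2
      have h4 : -(M s g + 1) / (Mb s f g) * 1 * Mb s f g = -(M s g + 1) := by
        field_simp
      have h5 : 2 * (-(M s g + 1) / (Mb s f g) * 1) * Mb s f g = -(M s g + 1) * 2 := by
        rw [mul_assoc, h4]
        ring
      rw [h5] at h2
      linarith
  · have hpos : 0 < M s f := lt_of_le_of_ne hf (Ne.symm hz)
    have h := key (-Mb s f g) (M s f)
    have h2 : 0 ≤ M s f * (M s f * M s g - (Mb s f g) ^ 2) := by
      nlinarith
    have h3 := nonneg_of_mul_nonneg_right h2 hpos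
    linarith

theorem two_Mb_le (s : ℕ) (f g : SS) {c : ℝ} (hc : 0 < c) :
    |Mb s f g| ≤ c * M s f + (1 / (4 * c)) * M s g := by
  have h := Mb_le s f g
  have h1 := Real.sq_sqrt (M_nonneg s f)
  have h2 := Real.sq_sqrt (M_nonneg s g)
  set a := √(M s f)
  set b := √(M s g)
  rw [← h1, ← h2]
  have h3 : a * b ≤ c * a ^ 2 + (1 / (4 * c)) * b ^ 2 := by
    have h4 : 0 ≤ (2 * c * a - b) ^ 2 / (4 * c) := by positivity
    have h5 : (2 * c * a - b) ^ 2 / (4 * c) = c * a ^ 2 + (1 / (4 * c)) * b ^ 2 - a * b := by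
      field_simp
      ring
    linarith
  exact h.trans h3

theorem M_add_le (s : ℕ) (f g : SS) : M s (f + g) ≤ 2 * M s f + 2 * M s g := by
  have h := M_nonneg s (f + (-1 : ℝ) • g)
  unfold M at h ⊢
  rw [Mb_add_left, Mb_add_right, Mb_add_right, Mb_smul_left, Mb_smul_left,
    Mb_smul_right, Mb_smul_right, Mb_comm s g f] at h
  rw [Mb_add_left, Mb_add_right, Mb_add_right, Mb_comm s g f]
  linarith

theorem M_smul (s : ℕ) (c : ℝ) (f : SS) : M s (c • f) = c ^ 2 * M s f := by
  unfold M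
  rw [Mb_smul_left, Mb_smul_right]
  ring

/-! ### Sums of functionals over words -/

/-- sum of a functional over all derivatives of order `a` -/
noncomputable def Sm : ℕ → (SS → ℝ) → SS → ℝ
  | 0, Φ, f => Φ f
  | a + 1, Φ, f => ∑ i : Fin 3, Sm a Φ (X i f)

theorem Sm_zero (Φ : SS → ℝ) (f : SS) : Sm 0 Φ f = Φ f := rfl
theorem Sm_succ (a : ℕ) (Φ : SS → ℝ) (f : SS) : Sm (a + 1) Φ f = ∑ i : Fin 3, Sm a Φ (X i f) := rfl

theorem Sm_mono (a : ℕ) {Φ Ψ : SS → ℝ} (h : ∀ f, Φ f ≤ Ψ f) (f : SS) : Sm a Φ f ≤ Sm a Ψ f := by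
  induction a generalizing f with
  | zero => exact h f
  | succ a ih =>
    rw [Sm_succ, Sm_succ]
    exact Finset.sum_le_sum fun i _ => ih _

theorem Sm_add (a : ℕ) (Φ Ψ : SS → ℝ) (f : SS) :
    Sm a (fun h => Φ h + Ψ h) f = Sm a Φ f + Sm a Ψ f := by
  induction a generalizing f with
  | zero => rfl
  | succ a ih =>
    rw [Sm_succ, Sm_succ, Sm_succ, ← Finset.sum_add_distrib]
    exact Finset.sum_congr rfl fun i _ => ih _

theorem Sm_const_mul (a : ℕ) (c : ℝ) (Φ : SS → ℝ) (f : SS) :
    Sm a (fun h => c * Φ h) f = c * Sm a Φ f := by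
  induction a generalizing f with
  | zero => rfl
  | succ a ih =>
    rw [Sm_succ, Sm_succ, Finset.mul_sum]
    exact Finset.sum_congr rfl fun i _ => ih _

theorem Sm_mul_const (a : ℕ) (c : ℝ) (Φ : SS → ℝ) (f : SS) :
    Sm a (fun h => Φ h * c) f = Sm a Φ f * c := by
  induction a generalizing f with
  | zero => rfl
  | succ a ih =>
    rw [Sm_succ, Sm_succ, Finset.sum_mul]
    exact Finset.sum_congr rfl fun i _ => ih _

theorem Sm_sum (a : ℕ) {ι : Type*} (t : Finset ι) (Φ : ι → SS → ℝ) (f : SS) :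
    Sm a (fun h => ∑ j ∈ t, Φ j h) f = ∑ j ∈ t, Sm a (Φ j) f := by
  induction a generalizing f with
  | zero => rfl
  | succ a ih =>
    simp only [Sm_succ, ih]
    rw [Finset.sum_comm]

theorem Sm_Sm (a b : ℕ) (Φ : SS → ℝ) (f : SS) : Sm a (Sm b Φ) f = Sm (a + b) Φ f := by
  induction a generalizing f with
  | zero => rw [Nat.zero_add]; rfl
  | succ a ih =>
    rw [Nat.succ_add, Sm_succ, Nat.succ_eq_add_one, Sm_succ]
    exact Finset.sum_congr rfl fun i _ => ih _

theorem M_eq_Sm (s : ℕ) (f : SS) : M s f = Sm s (fun h => I (h * h)) f := by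
  induction s generalizing f with
  | zero => rfl
  | succ s ih =>
    rw [M_succ, Sm_succ]
    exact Finset.sum_congr rfl fun i _ => ih _

theorem Sm_M (a k : ℕ) (f : SS) : Sm a (M k) f = M (a + k) f := by
  have h : M k = Sm k (fun h => I (h * h)) := by
    funext g
    exact M_eq_Sm k g
  rw [h, Sm_Sm, M_eq_Sm]

theorem Sm_nonneg (a : ℕ) {Φ : SS → ℝ} (h : ∀ f, 0 ≤ Φ f) (f : SS) : 0 ≤ Sm a Φ f := by
  induction a generalizing f with
  | zero => exact h f
  | succ a ih =>
    rw [Sm_succ]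
    exact Finset.sum_nonneg fun i _ => ih _

/-! ### Products of derivatives -/

/-- the sum over words of the squared `L²` norms of `X^v f * X^w g` -/
noncomputable def PP (a b : ℕ) (f g : SS) : ℝ :=
  Sm a (fun f' => Sm b (fun g' => I (f' * f' * (g' * g'))) g) f

theorem PP_succ_left (a b : ℕ) (f g : SS) : PP (a + 1) b f g = ∑ i : Fin 3, PP a b (X i f) g := rfl

theorem PP_succ_right (a b : ℕ) (f g : SS) :
    PP a (b + 1) f g = ∑ i : Fin 3, PP a b f (X i g) := by
  unfold PP
  simp only [Sm_succ]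
  rw [Sm_sum]

theorem I_sq_mul_sq_nonneg (f g : SS) : 0 ≤ I (f * f * (g * g)) :=
  I_nonneg fun p => mul_nonneg (mul_self_nonneg (f p)) (mul_self_nonneg (g p))

theorem PP_nonneg (a b : ℕ) (f g : SS) : 0 ≤ PP a b f g :=
  Sm_nonneg a (fun _ => Sm_nonneg b (fun _ => I_sq_mul_sq_nonneg _ _) _) _

theorem sum_antidiagonal_PP_left (s : ℕ) (f g : SS) :
    ∑ z ∈ Finset.HasAntidiagonal.antidiagonal s, PP (z.1 + 1) z.2 f g ≤
      ∑ z ∈ Finset.HasAntidiagonal.antidiagonal (s + 1), PP z.1 z.2 f g := by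
  rw [Finset.Nat.sum_antidiagonal_succ]
  have := PP_nonneg 0 (s + 1) f g
  linarith

theorem sum_antidiagonal_PP_right (s : ℕ) (f g : SS) :
    ∑ z ∈ Finset.HasAntidiagonal.antidiagonal s, PP z.1 (z.2 + 1) f g ≤
      ∑ z ∈ Finset.HasAntidiagonal.antidiagonal (s + 1), PP z.1 z.2 f g := by
  rw [Finset.Nat.sum_antidiagonal_succ']
  have := PP_nonneg (s + 1) 0 f g
  linarith

/-- the Leibniz rule -/
theorem M_mul_le (s : ℕ) (f g : SS) :
    M s (f * g) ≤ 4 ^ s * ∑ z ∈ Finset.HasAntidiagonal.antidiagonal s, PP z.1 z.2 f g := by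
  induction s generalizing f g with
  | zero =>
    simp only [pow_zero, one_mul, Finset.Nat.antidiagonal_zero, Finset.sum_singleton]
    rw [M_zero]
    change _ ≤ I (f * f * (g * g))
    rw [show f * g * (f * g) = f * f * (g * g) by ring]
  | succ s ih =>
    rw [M_succ]
    have h1 : ∀ i : Fin 3, M s (X i (f * g)) ≤
        2 * (4 ^ s * ∑ z ∈ Finset.HasAntidiagonal.antidiagonal s, PP z.1 z.2 (X i f) g) +
        2 * (4 ^ s * ∑ z ∈ Finset.HasAntidiagonal.antidiagonal s, PP z.1 z.2 f (X i g)) := by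
      intro i
      rw [X_mul]
      have h2 := M_add_le s (X i f * g) (f * X i g)
      have h3 := ih (X i f) g
      have h4 := ih f (X i g)
      linarith
    have h2 := Finset.sum_le_sum (s := (Finset.univ : Finset (Fin 3))) fun i _ => h1 i
    refine h2.trans ?_
    have e1 : ∑ i : Fin 3, ∑ z ∈ Finset.HasAntidiagonal.antidiagonal s, PP z.1 z.2 (X i f) g =
        ∑ z ∈ Finset.HasAntidiagonal.antidiagonal s, ∑ i : Fin 3, PP z.1 z.2 (X i f) g :=
      Finset.sum_comm
    have e2 : ∑ i : Fin 3, ∑ z ∈ Finset.HasAntidiagonal.antidiagonal s, PP z.1 z.2 f (X i g) =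
        ∑ z ∈ Finset.HasAntidiagonal.antidiagonal s, ∑ i : Fin 3, PP z.1 z.2 f (X i g) :=
      Finset.sum_comm
    rw [Finset.sum_add_distrib, ← Finset.mul_sum, ← Finset.mul_sum, ← Finset.mul_sum,
      ← Finset.mul_sum, e1, e2]
    have h3 := sum_antidiagonal_PP_left s f g
    have h4 := sum_antidiagonal_PP_right s f g
    simp only [PP_succ_left] at h3
    simp only [PP_succ_right] at h4
    have h5 : (0 : ℝ) < 4 ^ s := by positivity
    rw [pow_succ]
    nlinarith

/-- the commutator functional -/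
noncomputable def Em : ℕ → SS → SS → SS → ℝ
  | 0, G, k, h => I ((k - G * h) * (k - G * h))
  | s + 1, G, k, h => ∑ i : Fin 3, Em s G (X i k) (X i h)

theorem Em_zero (G k h : SS) : Em 0 G k h = I ((k - G * h) * (k - G * h)) := rfl
theorem Em_succ (s : ℕ) (G k h : SS) : Em (s + 1) G k h = ∑ i : Fin 3, Em s G (X i k) (X i h) := rfl

theorem Em_add (s : ℕ) (G k l h : SS) : Em s G (k + l) h ≤ 2 * M s k + 2 * Em s G l h := by
  induction s generalizing k l h with
  | zero =>
    rw [Em_zero, Em_zero]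
    have h1 := M_add_le 0 k (l - G * h)
    rw [M_zero, M_zero, M_zero] at h1
    rw [show k + l - G * h = k + (l - G * h) by ring, M_zero]
    exact h1
  | succ s ih =>
    rw [Em_succ, Em_succ, M_succ, Finset.mul_sum, Finset.mul_sum, ← Finset.sum_add_distrib]
    apply Finset.sum_le_sum
    intro i _
    rw [map_add]
    exact ih _ _ _

/-- the commutator of a word of derivatives and a multiplication -/
theorem Em_le (s : ℕ) (G h : SS) : Em (s + 1) G (G * h) h ≤
    4 ^ (s + 1) * ∑ z ∈ Finset.HasAntidiagonal.antidiagonal s, PP (z.1 + 1) z.2 G h := by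
  have base : ∀ (s : ℕ) (G h : SS), Em (s + 1) G (G * h) h ≤
      2 * (4 ^ s * ∑ z ∈ Finset.HasAntidiagonal.antidiagonal s, PP (z.1 + 1) z.2 G h) +
      2 * ∑ i : Fin 3, Em s G (G * X i h) (X i h) := by
    intro s G h
    rw [Em_succ]
    have h1 : ∀ i : Fin 3, Em s G (X i (G * h)) (X i h) ≤
        2 * (4 ^ s * ∑ z ∈ Finset.HasAntidiagonal.antidiagonal s, PP z.1 z.2 (X i G) h) +
        2 * Em s G (G * X i h) (X i h) := by
      intro i
      rw [X_mul]
      have h2 := Em_add s G (X i G * h) (G * X i h) (X i h)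
      have h3 := M_mul_le s (X i G) h
      linarith
    have h2 := Finset.sum_le_sum (s := (Finset.univ : Finset (Fin 3))) fun i _ => h1 i
    refine h2.trans (le_of_eq ?_)
    rw [Finset.sum_add_distrib, ← Finset.mul_sum, ← Finset.mul_sum, ← Finset.mul_sum,
      Finset.sum_comm]
    rfl
  induction s generalizing h with
  | zero =>
    have h1 := base 0 G h
    refine h1.trans ?_
    have h2 : ∀ i : Fin 3, Em 0 G (G * X i h) (X i h) = 0 := by
      intro i
      rw [Em_zero, sub_self, zero_mul, map_zero]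
    simp only [h2, Finset.sum_const_zero, mul_zero, add_zero]
    have h3 : 0 ≤ ∑ z ∈ Finset.HasAntidiagonal.antidiagonal 0, PP (z.1 + 1) z.2 G h :=
      Finset.sum_nonneg fun z _ => PP_nonneg _ _ _ _
    rw [pow_zero, one_mul, zero_add, pow_one]
    linarith
  | succ s ih =>
    refine (base (s + 1) G h).trans ?_
    have h1 := Finset.sum_le_sum (s := (Finset.univ : Finset (Fin 3))) fun i _ => ih (X i h)
    rw [← Finset.mul_sum, Finset.sum_comm] at h1
    have h2 : ∑ z ∈ Finset.HasAntidiagonal.antidiagonal s, ∑ i : Fin 3, PP (z.1 + 1) z.2 G (X i h) ≤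
        ∑ z ∈ Finset.HasAntidiagonal.antidiagonal (s + 1), PP (z.1 + 1) z.2 G h := by
      rw [Finset.Nat.sum_antidiagonal_succ']
      simp only [PP_succ_right]
      have := PP_nonneg (s + 1 + 1) 0 G h
      linarith
    have h3 : 0 ≤ ∑ z ∈ Finset.HasAntidiagonal.antidiagonal (s + 1), PP (z.1 + 1) z.2 G h :=
      Finset.sum_nonneg fun z _ => PP_nonneg _ _ _ _
    have h5 : (0 : ℝ) < 4 ^ (s + 1) := by positivity
    rw [pow_succ 4 (s + 1)]
    nlinarith

/-- coercivity up to the commutator -/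
theorem coercive (s : ℕ) {c₀ : ℝ} (hc : 0 < c₀) (G : SS) (hG : ∀ p, c₀ ≤ G p) (h k : SS) :
    - Mb s h k ≤ -(7 * c₀ / 8) * M s h + (2 / c₀) * Em s G k h := by
  induction s generalizing h k with
  | zero =>
    rw [Mb_zero, M_zero, Em_zero]
    have h1 : c₀ * I (h * h) ≤ I (G * (h * h)) := by
      rw [← smul_eq_mul, ← map_smul]
      apply I_mono
      intro p
      rw [ss_smul, ss_mul, ss_mul]
      exact mul_le_mul_of_nonneg_right (hG p) (mul_self_nonneg _)
    have h2 := (abs_le.mp (two_Mb_le 0 h (k - G * h) (c := c₀ / 8) (by positivity))).1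
    rw [Mb_zero, M_zero, M_zero] at h2
    have h3 : h * k = G * (h * h) + h * (k - G * h) := by ring
    rw [h3, map_add]
    have h4 : 1 / (4 * (c₀ / 8)) = 2 / c₀ := by
      field_simp
      ring
    rw [h4] at h2
    linarith
  | succ s ih =>
    rw [Mb_succ, M_succ, Em_succ, Finset.mul_sum, Finset.mul_sum, ← Finset.sum_neg_distrib,
      ← Finset.sum_add_distrib]
    exact Finset.sum_le_sum fun i _ => ih _ _

end Pool.Agent.helper68.S2
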