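import Mathlib
import Pool.Agent.helper9.S2.Words

/-!
# Sobolev norms on the sphere (module N), part 2: products, compositions, energy

Everything is deduced from the Sobolev embedding with a parameter, `SupB A`.
-/

set_option autoImplicit false

open MeasureTheory Metric Set Filter
open scoped ContDiff Topology

namespace Pool.Agent.helper68.S2

/-- the Sobolev embedding with a parameter, with the constant `A` -/
def SupB (A : ℝ) : Prop := ∀ (f : SS) (p : Sph) (m : ℕ), 1 ≤ m →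
  |f p| ≤ A * (m * √(I (f * f)) + (1 / m) * √(I (Lap f * Lap f)))

theorem M_two (f : SS) : M 2 f = I (Lap f * Lap f) := by
  have h := M_Lap 0 f
  rw [M_zero] at h
  exact h.symm

theorem SupB.sq {A : ℝ} (hA : SupB A) (f : SS) (p : Sph) (m : ℕ) (hm : 1 ≤ m) :
    f p * f p ≤ 2 * A ^ 2 * (m ^ 2 * M 0 f + (1 / m ^ 2) * M 2 f) := by
  have h := hA f p m hm
  rw [← M_two, ← M_zero] at h
  have h1 := Real.sq_sqrt (M_nonneg 0 f)
  have h2 := Real.sq_sqrt (M_nonneg 2 f)
  set a := √(M 0 f)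
  set b := √(M 2 f)
  have hm' : (0 : ℝ) < m := by exact_mod_cast hm
  have h3 : f p * f p ≤ (A * (m * a + (1 / m) * b)) ^ 2 := by
    rw [← abs_mul_abs_self, ← pow_two]
    exact pow_le_pow_left₀ (abs_nonneg _) h 2
  refine h3.trans ?_
  rw [← h1, ← h2]
  have h4 : 0 ≤ A ^ 2 * (m * a - (1 / m) * b) ^ 2 := by positivity
  have h5 : (1 / (m : ℝ) ^ 2) = (1 / m) ^ 2 := by
    rw [one_div, one_div, inv_pow]
  rw [h5]
  nlinarith

theorem SupB.one {A : ℝ} (hA : SupB A) (f : SS) (p : Sph) :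
    f p * f p ≤ 2 * A ^ 2 * (M 0 f + M 2 f) := by
  have h := hA.sq f p 1 le_rfl
  simpa using h

theorem I_mul_sq_le {f g : SS} {B : ℝ} (h : ∀ p, f p * f p ≤ B) :
    I (f * f * (g * g)) ≤ B * I (g * g) := by
  have e : B * I (g * g) = I (B • (g * g)) := by rw [map_smul, smul_eq_mul]
  rw [e]
  apply I_mono
  intro p
  rw [ss_smul, ss_mul, ss_mul, ss_mul]
  exact mul_le_mul_of_nonneg_right (h p) (mul_self_nonneg _)

theorem PP_symm (a b : ℕ) (f g : SS) : PP a b f g = PP b a g f := by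
  induction a generalizing f with
  | zero =>
    unfold PP
    simp only [Sm_zero]
    congr 1
    funext g'
    rw [mul_comm]
  | succ a ih =>
    rw [PP_succ_left, PP_succ_right]
    exact Finset.sum_congr rfl fun i _ => ih _

theorem PP_le_right {A : ℝ} (hA : SupB A) (a b : ℕ) (f g : SS) (m : ℕ) (hm : 1 ≤ m) :
    PP a b f g ≤ M a f * (2 * A ^ 2 * (m ^ 2 * M b g + (1 / m ^ 2) * M (b + 2) g)) := by
  unfold PP
  have h1 : ∀ f' g' : SS, I (f' * f' * (g' * g')) ≤
      I (f' * f') * (2 * A ^ 2 * (m ^ 2 * M 0 g' + (1 / m ^ 2) * M 2 g')) := by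
    intro f' g'
    rw [mul_comm (f' * f') (g' * g')]
    have := I_mul_sq_le (f := g') (g := f') fun p => hA.sq g' p m hm
    rw [mul_comm (I (f' * f'))]
    exact this
  have h2 : ∀ f' : SS, Sm b (fun g' => I (f' * f' * (g' * g'))) g ≤
      I (f' * f') * (2 * A ^ 2 * (m ^ 2 * M b g + (1 / m ^ 2) * M (b + 2) g)) := by
    intro f'
    refine (Sm_mono b (fun g' => h1 f' g') g).trans (le_of_eq ?_)
    rw [Sm_const_mul, Sm_const_mul, Sm_add, Sm_const_mul, Sm_const_mul]
    have e0 := Sm_M b 0 g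
    have e2 := Sm_M b 2 g
    rw [Nat.add_zero] at e0
    rw [← e0, ← e2]
  refine (Sm_mono a h2 f).trans (le_of_eq ?_)
  rw [Sm_mul_const, M_eq_Sm a f]

theorem PP_le_right_one {A : ℝ} (hA : SupB A) (a b : ℕ) (f g : SS) :
    PP a b f g ≤ 2 * A ^ 2 * (M a f * (M b g + M (b + 2) g)) := by
  have h := PP_le_right hA a b f g 1 le_rfl
  simp only [Nat.cast_one, one_pow, one_mul, div_one] at h
  linarith

theorem PP_le_left_one {A : ℝ} (hA : SupB A) (a b : ℕ) (f g : SS) :
    PP a b f g ≤ 2 * A ^ 2 * ((M a f + M (a + 2) f) * M b g) := by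
  rw [PP_symm]
  have h := PP_le_right_one hA b a g f
  rw [mul_comm (M b g)] at h
  exact h

theorem PP_zero_le {f : SS} {B : ℝ} (h : ∀ p, f p * f p ≤ B) (b : ℕ) (g : SS) :
    PP 0 b f g ≤ B * M b g := by
  unfold PP
  rw [Sm_zero, M_eq_Sm, ← Sm_const_mul]
  exact Sm_mono b (fun g' => I_mul_sq_le h) g

theorem PP_one_le {G : SS} {Q : ℝ} (h : ∀ p, ∑ i, (X i G p) ^ 2 ≤ Q) (b : ℕ) (g : SS) :
    PP 1 b G g ≤ Q * M b g := by
  rw [PP_succ_left]
  unfold PP
  simp only [Sm_zero]
  rw [← Sm_sum, M_eq_Sm, ← Sm_const_mul]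
  apply Sm_mono
  intro g'
  have e : Q * I (g' * g') = I (Q • (g' * g')) := by rw [map_smul, smul_eq_mul]
  rw [e, ← map_sum]
  apply I_mono
  intro p
  rw [ss_sum, ss_smul]
  simp only [ss_mul]
  rw [← Finset.sum_mul]
  apply mul_le_mul_of_nonneg_right _ (mul_self_nonneg _)
  refine le_trans (le_of_eq ?_) (h p)
  exact Finset.sum_congr rfl fun i _ => (sq _).symm

/-! ### The fourth power of the gradient -/

theorem I4_le {A : ℝ} (hA : SupB A) (f : SS) (i : Fin 3) :
    I (X i f * X i f * (X i f * X i f)) ≤ 18 * A ^ 2 * (M 0 f + M 2 f) * I (X i (X i f) * X i (X i f)) := by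
  set J := I (X i f * X i f * (X i f * X i f)) with hJ
  set S := 2 * A ^ 2 * (M 0 f + M 2 f) with hS
  set L := I (X i (X i f) * X i (X i f)) with hL
  have hJ0 : 0 ≤ J := I_sq_mul_sq_nonneg _ _
  have hL0 : 0 ≤ L := M0_nonneg _
  have hS0 : 0 ≤ S := by
    have h1 := M_nonneg 0 f
    have h2 := M_nonneg 2 f
    positivity
  have e1 : J = - I (f * (X i f * X i f) * ((3 : ℝ) • X i (X i f))) := by
    have h1 := ibp i f (X i f * (X i f * X i f))
    have h2 : X i (X i f * (X i f * X i f)) = (3 : ℝ) • (X i f * X i f * X i (X i f)) := by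
      rw [X_mul, X_mul]
      have h3 : (3 : ℝ) • (X i f * X i f * X i (X i f)) = X i f * X i f * X i (X i f) +
          X i f * X i f * X i (X i f) + X i f * X i f * X i (X i f) := by
        rw [show (3 : ℝ) = 1 + 1 + 1 by norm_num, add_smul, add_smul, one_smul]
      rw [h3]
      ring
    rw [h2] at h1
    rw [hJ, show X i f * X i f * (X i f * X i f) = X i f * (X i f * (X i f * X i f)) by ring, h1]
    congr 2
    rw [mul_smul_comm, mul_smul_comm]
    congr 1
    ring
  have e2 := Mb_le 0 (f * (X i f * X i f)) ((3 : ℝ) • X i (X i f))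
  rw [M_smul, Mb_zero, M_zero, M_zero] at e2
  have e3 : J ≤ √(I (f * (X i f * X i f) * (f * (X i f * X i f)))) * √(3 ^ 2 * L) := by
    rw [e1]
    exact (neg_le_abs _).trans e2
  have e4 : I (f * (X i f * X i f) * (f * (X i f * X i f))) ≤ S * J := by
    have h1 := I_mul_sq_le (f := f) (g := X i f * X i f) (B := S) fun p => hA.one f p
    rw [show f * (X i f * X i f) * (f * (X i f * X i f)) = f * f * (X i f * X i f * (X i f * X i f))
      by ring]
    exact h1
  have e5 : J ≤ √(S * J) * √(3 ^ 2 * L) :=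
    e3.trans (mul_le_mul_of_nonneg_right (Real.sqrt_le_sqrt e4) (Real.sqrt_nonneg _))
  rw [← Real.sqrt_mul (by positivity)] at e5
  have e6 : J ^ 2 ≤ S * J * (3 ^ 2 * L) := by
    have := pow_le_pow_left₀ hJ0 e5 2
    rwa [Real.sq_sqrt (by positivity)] at this
  by_cases hz : J = 0
  · rw [hz]
    have h1 := M_nonneg 0 f
    have h2 := M_nonneg 2 f
    positivity
  · have hpos : 0 < J := lt_of_le_of_ne hJ0 (Ne.symm hz)
    have e7 : J * J ≤ J * (18 * A ^ 2 * (M 0 f + M 2 f) * L) := by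
      calc J * J = J ^ 2 := by ring
        _ ≤ S * J * (3 ^ 2 * L) := e6
        _ = J * (18 * A ^ 2 * (M 0 f + M 2 f) * L) := by rw [hS]; ring
    exact le_of_mul_le_mul_left e7 hpos

theorem XX_le_M2 (f : SS) (i j : Fin 3) : I (X i (X j f) * X i (X j f)) ≤ M 2 f := by
  have h1 : M 2 f = ∑ j : Fin 3, ∑ i : Fin 3, I (X i (X j f) * X i (X j f)) := rfl
  rw [h1]
  have h2 : ∑ i : Fin 3, I (X i (X j f) * X i (X j f)) ≤
      ∑ j : Fin 3, ∑ i : Fin 3, I (X i (X j f) * X i (X j f)) :=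
    Finset.single_le_sum (f := fun j => ∑ i : Fin 3, I (X i (X j f) * X i (X j f)))
      (fun j _ => Finset.sum_nonneg fun i _ => M0_nonneg _) (Finset.mem_univ j)
  refine le_trans ?_ h2
  exact Finset.single_le_sum (f := fun i => I (X i (X j f) * X i (X j f)))
    (fun i _ => M0_nonneg _) (Finset.mem_univ i)

theorem NN_two (f : SS) : NN 2 f = M 0 f + M 1 f + M 2 f := by
  unfold NN
  rw [Finset.sum_range_succ, Finset.sum_range_succ, Finset.sum_range_succ]
  simp

theorem PP_one_one {A : ℝ} (hA : SupB A) (f g : SS) :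
    PP 1 1 f g ≤ 162 * A ^ 2 * (NN 2 f * NN 2 g) := by
  have hJ : ∀ (f : SS) (i : Fin 3), √(I (X i f * X i f * (X i f * X i f))) ≤
      √(18 * A ^ 2) * NN 2 f := by
    intro f i
    have h1 := I4_le hA f i
    have h2 := XX_le_M2 f i i
    have h3 := NN_two f
    have m0 := M_nonneg 0 f
    have m1 := M_nonneg 1 f
    have m2 := M_nonneg 2 f
    have h4 : I (X i f * X i f * (X i f * X i f)) ≤ 18 * A ^ 2 * (NN 2 f) ^ 2 := by
      refine h1.trans ?_
      have h5 : (M 0 f + M 2 f) * I (X i (X i f) * X i (X i f)) ≤ NN 2 f * NN 2 f := by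
        apply mul_le_mul
        · rw [h3]; linarith
        · rw [h3]; linarith
        · exact M0_nonneg _
        · exact NN_nonneg _ _
      have h6 : 0 ≤ 18 * A ^ 2 := by positivity
      calc 18 * A ^ 2 * (M 0 f + M 2 f) * I (X i (X i f) * X i (X i f))
          = 18 * A ^ 2 * ((M 0 f + M 2 f) * I (X i (X i f) * X i (X i f))) := by ring
        _ ≤ 18 * A ^ 2 * (NN 2 f * NN 2 f) := mul_le_mul_of_nonneg_left h5 h6
        _ = _ := by ring
    refine (Real.sqrt_le_sqrt h4).trans (le_of_eq ?_)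
    rw [Real.sqrt_mul (by positivity), Real.sqrt_sq (NN_nonneg _ _)]
  have hij : ∀ i j : Fin 3, I (X i f * X i f * (X j g * X j g)) ≤ 18 * A ^ 2 * (NN 2 f * NN 2 g) := by
    intro i j
    have h1 := Mb_le 0 (X i f * X i f) (X j g * X j g)
    rw [Mb_zero, M_zero, M_zero] at h1
    have h2 := (le_abs_self _).trans h1
    refine h2.trans ?_
    have h3 := mul_le_mul (hJ f i) (hJ g j) (Real.sqrt_nonneg _)
      (mul_nonneg (Real.sqrt_nonneg _) (NN_nonneg _ _))
    refine h3.trans (le_of_eq ?_)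
    have h4 : √(18 * A ^ 2) * √(18 * A ^ 2) = 18 * A ^ 2 := Real.mul_self_sqrt (by positivity)
    calc √(18 * A ^ 2) * NN 2 f * (√(18 * A ^ 2) * NN 2 g)
        = √(18 * A ^ 2) * √(18 * A ^ 2) * (NN 2 f * NN 2 g) := by ring
      _ = _ := by rw [h4]
  rw [PP_succ_left]
  simp only [PP_succ_right]
  have h1 : ∑ i : Fin 3, ∑ j : Fin 3, PP 0 0 (X i f) (X j g) ≤
      ∑ i : Fin 3, ∑ j : Fin 3, 18 * A ^ 2 * (NN 2 f * NN 2 g) :=
    Finset.sum_le_sum fun i _ => Finset.sum_le_sum fun j _ => hij i j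
  refine h1.trans (le_of_eq ?_)
  simp only [Finset.sum_const, Finset.card_univ, Fintype.card_fin, nsmul_eq_mul]
  push_cast
  ring

/-! ### Sup bounds and interpolation -/

theorem SupB.sup_le {A : ℝ} (hA : SupB A) (f : SS) (p : Sph) : |f p| ^ 2 ≤ 2 * A ^ 2 * NN 2 f := by
  have h1 := hA.one f p
  have h2 := M_nonneg 1 f
  have h3 : 2 * A ^ 2 * (M 0 f + M 2 f) ≤ 2 * A ^ 2 * NN 2 f := by
    apply mul_le_mul_of_nonneg_left _ (by positivity)
    rw [NN_two]
    linarith
  rw [pow_two, abs_mul_abs_self]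
  linarith

theorem SupB.agmon {A : ℝ} (hA : SupB A) (f : SS) (p : Sph) :
    |f p| ^ 2 ≤ 16 * A ^ 2 * √(M 0 f) * (√(M 0 f) + √(M 2 f)) := by
  have key : ∀ m : ℕ, 1 ≤ m → |f p| ^ 2 ≤ A ^ 2 * (m * √(M 0 f) + (1 / m) * √(M 2 f)) ^ 2 := by
    intro m hm
    have h := hA f p m hm
    rw [← M_two, ← M_zero] at h
    have := pow_le_pow_left₀ (abs_nonneg _) h 2
    rwa [mul_pow] at this
  have ha := Real.sqrt_nonneg (M 0 f)
  have hb := Real.sqrt_nonneg (M 2 f)
  set a := √(M 0 f)
  set b := √(M 2 f)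
  have hA2 : 0 ≤ A ^ 2 := sq_nonneg A
  rcases ha.eq_or_lt with h0 | h0
  · rw [← h0] at key ⊢
    simp only [mul_zero, zero_add, zero_mul] at key ⊢
    have h1 : ∀ m : ℕ, 1 ≤ m → |f p| ^ 2 ≤ A ^ 2 * b ^ 2 * (1 / m) := by
      intro m hm
      have hm' : (1 : ℝ) ≤ m := by exact_mod_cast hm
      refine (key m hm).trans ?_
      have h2 : (1 / (m : ℝ) * b) ^ 2 ≤ b ^ 2 * (1 / m) := by
        rw [mul_pow, mul_comm]
        apply mul_le_mul_of_nonneg_left _ (sq_nonneg b)
        have h3 : 1 / (m : ℝ) ≤ 1 := by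
          rw [div_le_one (by linarith)]
          exact hm'
        have h4 : 0 ≤ 1 / (m : ℝ) := by positivity
        nlinarith
      rw [mul_assoc]
      exact mul_le_mul_of_nonneg_left h2 hA2
    have h2 : Tendsto (fun m : ℕ => A ^ 2 * b ^ 2 * (1 / (m : ℝ))) atTop (𝓝 (A ^ 2 * b ^ 2 * 0)) :=
      tendsto_one_div_atTop_nhds_zero_nat.const_mul _
    rw [mul_zero] at h2
    exact ge_of_tendsto h2 (eventually_atTop.mpr ⟨1, h1⟩)
  · rcases le_total b a with h | h
    · have h1 := key 1 le_rfl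
      simp only [Nat.cast_one, one_mul, div_one] at h1
      have h2 : (a + b) ^ 2 ≤ 4 * (a * (a + b)) := by nlinarith
      have h3 := mul_le_mul_of_nonneg_left h2 hA2
      have h4 : 0 ≤ A ^ 2 * (a * (a + b)) := by positivity
      nlinarith
    · have hq : 1 ≤ b / a := by
        rw [le_div_iff₀ h0]
        linarith
      set r := √(b / a) with hr
      have hr1 : 1 ≤ r := by
        rw [hr, Real.one_le_sqrt]
        exact hq
      have hr2 : r ^ 2 = b / a := Real.sq_sqrt (by linarith)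
      have hb2 : b = r ^ 2 * a := by
        rw [hr2]
        field_simp
      have hm1 : r ≤ ⌈r⌉₊ := Nat.le_ceil r
      have hm2 : (⌈r⌉₊ : ℝ) < r + 1 := Nat.ceil_lt_add_one (by linarith)
      have hm3 : 1 ≤ ⌈r⌉₊ := Nat.one_le_ceil_iff.mpr (by linarith)
      have h1 := key _ hm3
      set m : ℝ := (⌈r⌉₊ : ℝ)
      have hm0 : 0 < m := by linarith
      have h2 : m * a + (1 / m) * b ≤ 3 * (r * a) := by
        have h3 : m * a ≤ 2 * r * a := mul_le_mul_of_nonneg_right (by linarith) ha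
        have h4 : (1 / m) * b ≤ r * a := by
          rw [hb2, one_div, inv_mul_le_iff₀ hm0]
          have : r * (r * a) ≤ m * (r * a) := mul_le_mul_of_nonneg_right hm1 (by positivity)
          nlinarith
        linarith
      have h3 : 0 ≤ m * a + (1 / m) * b := by positivity
      have h4 : (m * a + (1 / m) * b) ^ 2 ≤ 9 * (a * b) := by
        have h5 := pow_le_pow_left₀ h3 h2 2
        have h6 : (3 * (r * a)) ^ 2 = 9 * (a * b) := by
          rw [hb2]
          ring
        linarith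
      have h5 := mul_le_mul_of_nonneg_left h4 hA2
      have h6 : 0 ≤ A ^ 2 * (a * b) := by positivity
      have h7 : 0 ≤ A ^ 2 * (a * a) := by positivity
      nlinarith

/-- interpolation -/
theorem M_interp (s : ℕ) (f : SS) : M (s + 1) f ≤ √(M s f) * √(M (s + 2) f) := by
  have h1 := Mb_le s (Lap f) f
  rw [M_Lap] at h1
  have h2 : M (s + 1) f = - Mb s (Lap f) f := Mb_succ' s f f
  rw [h2, mul_comm]
  exact (neg_le_abs _).trans h1

/-! ### Products -/

theorem SupB.PP_le {A : ℝ} (hA : SupB A) {s a b : ℕ} (hs : 2 ≤ s) (hab : a + b ≤ s) (f g : SS) :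
    PP a b f g ≤ 166 * A ^ 2 * (NN s f * NN s g) := by
  have hf := NN_nonneg s f
  have hg := NN_nonneg s g
  have hfg : 0 ≤ NN s f * NN s g := mul_nonneg hf hg
  have hA2 : 0 ≤ A ^ 2 := sq_nonneg A
  have hP : 0 ≤ A ^ 2 * (NN s f * NN s g) := mul_nonneg hA2 hfg
  by_cases h1 : a + 2 ≤ s
  · have h2 := PP_le_left_one hA a b f g
    have h3 : (M a f + M (a + 2) f) * M b g ≤ (2 * NN s f) * NN s g := by
      apply mul_le_mul
      · have := M_le_NN (show a ≤ s by omega) f
        have := M_le_NN h1 f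
        linarith
      · exact M_le_NN (by omega) g
      · exact M_nonneg _ _
      · linarith
    have h4 : 2 * A ^ 2 * ((M a f + M (a + 2) f) * M b g) ≤ 2 * A ^ 2 * ((2 * NN s f) * NN s g) :=
      mul_le_mul_of_nonneg_left h3 (by positivity)
    nlinarith
  · by_cases h2 : b + 2 ≤ s
    · have h3 := PP_le_right_one hA a b f g
      have h4 : M a f * (M b g + M (b + 2) g) ≤ NN s f * (2 * NN s g) := by
        apply mul_le_mul
        · exact M_le_NN (by omega) f
        · have := M_le_NN (show b ≤ s by omega) g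
          have := M_le_NN h2 g
          linarith
        · exact add_nonneg (M_nonneg _ _) (M_nonneg _ _)
        · exact hf
      have h5 : 2 * A ^ 2 * (M a f * (M b g + M (b + 2) g)) ≤ 2 * A ^ 2 * (NN s f * (2 * NN s g)) :=
        mul_le_mul_of_nonneg_left h4 (by positivity)
      nlinarith
    · have hs2 : s = 2 := by omega
      have ha : a = 1 := by omega
      have hb : b = 1 := by omega
      subst hs2 ha hb
      have := PP_one_one hA f g
      nlinarith

theorem SupB.prod_le {A : ℝ} (hA : SupB A) (s : ℕ) (hs : 2 ≤ s) :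
    ∃ C, ∀ f g : SS, NN s (f * g) ≤ C * NN s f * NN s g := by
  refine ⟨∑ k ∈ Finset.range (s + 1), 4 ^ k * ∑ z ∈ Finset.HasAntidiagonal.antidiagonal k,
    166 * A ^ 2, fun f g => ?_⟩
  rw [mul_assoc, Finset.sum_mul]
  unfold NN
  apply Finset.sum_le_sum
  intro k hk
  rw [Finset.mem_range] at hk
  refine (M_mul_le k f g).trans ?_
  rw [mul_assoc, Finset.sum_mul]
  apply mul_le_mul_of_nonneg_left _ (by positivity)
  apply Finset.sum_le_sum
  intro z hz
  rw [Finset.HasAntidiagonal.mem_antidiagonal] at hz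
  exact hA.PP_le hs (by omega) f g

/-! ### Compositions -/

theorem Nice.bdd {φ : ℝ → ℝ} (h : Nice φ) : ∃ B, ∀ y, |φ y| ≤ B := by
  obtain ⟨h1, c, h2⟩ := h
  obtain ⟨C, hC⟩ := h2.exists_bound_of_continuous (h1.continuous.sub continuous_const)
  refine ⟨C + |c|, fun y => ?_⟩
  have h3 := hC y
  rw [Real.norm_eq_abs] at h3
  have h4 : |φ y| ≤ |φ y - c| + |c| := by
    have := abs_add_le (φ y - c) c
    rwa [sub_add_cancel] at this
  linarith

theorem Nice.deriv {φ : ℝ → ℝ} (h : Nice φ) : Nice (deriv φ) := by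
  obtain ⟨h1, c, h2⟩ := h
  refine ⟨?_, 0, ?_⟩
  · have := (contDiff_infty_iff_deriv (f := φ)).mp h1
    exact this.2
  · simp only [sub_zero]
    have h3 := h2.deriv
    have h4 : _root_.deriv (fun y => φ y - c) = _root_.deriv φ := by
      funext y
      rw [deriv_sub_const]
    rw [h4] at h3
    exact h3

theorem Nice.cmp_apply {φ : ℝ → ℝ} (h : Nice φ) (f : SS) (p : Sph) : cmp φ f p = φ (f p) :=
  S2.cmp_apply (s := univ) h.1.contDiffOn f (fun _ => mem_univ _) p

theorem Nice.X_cmp {φ : ℝ → ℝ} (h : Nice φ) (f : SS) (i : Fin 3) :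
    X i (cmp φ f) = cmp (_root_.deriv φ) f * X i f := by
  apply ssext
  intro p
  rw [ss_mul, h.deriv.cmp_apply, S2.X_cmp isOpen_univ h.1.contDiffOn f (fun _ => mem_univ _)]

theorem Nice.sq_le {φ : ℝ → ℝ} (h : Nice φ) : ∃ B, 0 ≤ B ∧ ∀ (f : SS) (p : Sph),
    cmp φ f p * cmp φ f p ≤ B := by
  obtain ⟨B, hB⟩ := h.bdd
  refine ⟨B ^ 2, sq_nonneg B, fun f p => ?_⟩
  rw [h.cmp_apply, ← abs_mul_abs_self, ← sq]
  exact pow_le_pow_left₀ (abs_nonneg _) (hB _) 2

theorem I_le_const {f : SS} {B : ℝ} (h : ∀ p, f p ≤ B) : I f ≤ B * (4 * Real.pi) := by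
  rw [← I_const]
  apply I_mono
  intro p
  rw [ss_algebraMap]
  exact h p

theorem SupB.comp_two {A : ℝ} (hA : SupB A) {φ : ℝ → ℝ} (hφ : Nice φ) (K : ℝ) :
    ∃ B, ∀ f : SS, NN 2 f ≤ K → NN 2 (cmp φ f) ≤ B := by
  obtain ⟨B0, hB0, h0⟩ := hφ.sq_le
  obtain ⟨B1, hB1, h1⟩ := hφ.deriv.sq_le
  obtain ⟨B2, hB2, h2⟩ := hφ.deriv.deriv.sq_le
  refine ⟨B0 * (4 * Real.pi) + B1 * K + 4 * (3 * (B1 * K) + 3 * (B2 * (162 * A ^ 2 * (K * K)))),
    fun f hf => ?_⟩
  have hn := NN_two f
  have m0 := M_nonneg 0 f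
  have m1 := M_nonneg 1 f
  have m2 := M_nonneg 2 f
  have hN := NN_nonneg 2 f
  have hK : 0 ≤ K := hN.trans hf
  rw [NN_two]
  have a0 : M 0 (cmp φ f) ≤ B0 * (4 * Real.pi) := I_le_const fun p => h0 f p
  have a1 : M 1 (cmp φ f) ≤ B1 * K := by
    rw [M_succ]
    simp only [M_zero, hφ.X_cmp]
    have h3 : ∀ i : Fin 3, I (cmp (_root_.deriv φ) f * X i f * (cmp (_root_.deriv φ) f * X i f)) ≤
        B1 * M 0 (X i f) := by
      intro i
      rw [show cmp (_root_.deriv φ) f * X i f * (cmp (_root_.deriv φ) f * X i f) =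
        cmp (_root_.deriv φ) f * cmp (_root_.deriv φ) f * (X i f * X i f) by ring]
      exact I_mul_sq_le fun p => h1 f p
    refine (Finset.sum_le_sum fun i _ => h3 i).trans ?_
    rw [← Finset.mul_sum, ← M_succ]
    apply mul_le_mul_of_nonneg_left _ hB1
    linarith
  have a2 : M 2 (cmp φ f) ≤ 4 * (3 * (B1 * K) + 3 * (B2 * (162 * A ^ 2 * (K * K)))) := by
    rw [M_succ]
    simp only [hφ.X_cmp]
    have h3 : ∀ i : Fin 3, M 1 (cmp (_root_.deriv φ) f * X i f) ≤
        4 * (B1 * K + B2 * (162 * A ^ 2 * (K * K))) := by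
      intro i
      have h4 := M_mul_le 1 (cmp (_root_.deriv φ) f) (X i f)
      rw [Finset.Nat.sum_antidiagonal_succ] at h4
      simp only [Finset.Nat.antidiagonal_zero, Finset.sum_singleton, zero_add, pow_one] at h4
      refine h4.trans ?_
      apply mul_le_mul_of_nonneg_left _ (by norm_num)
      apply add_le_add
      · refine (PP_zero_le (fun p => h1 f p) 1 (X i f)).trans ?_
        apply mul_le_mul_of_nonneg_left _ hB1
        have h5 : M 1 (X i f) ≤ M 2 f := by
          rw [M_succ 1 f]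
          exact Finset.single_le_sum (f := fun i => M 1 (X i f)) (fun i _ => M_nonneg _ _)
            (Finset.mem_univ i)
        linarith
      · have h5 : PP 1 0 (cmp (_root_.deriv φ) f) (X i f) ≤ B2 * PP 1 0 f (X i f) := by
          rw [PP_succ_left, PP_succ_left, Finset.mul_sum]
          apply Finset.sum_le_sum
          intro j _
          rw [hφ.deriv.X_cmp]
          change I (cmp (_root_.deriv (_root_.deriv φ)) f * X j f *
            (cmp (_root_.deriv (_root_.deriv φ)) f * X j f) * (X i f * X i f)) ≤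
            B2 * I (X j f * X j f * (X i f * X i f))
          rw [show cmp (_root_.deriv (_root_.deriv φ)) f * X j f *
            (cmp (_root_.deriv (_root_.deriv φ)) f * X j f) * (X i f * X i f) =
            cmp (_root_.deriv (_root_.deriv φ)) f * cmp (_root_.deriv (_root_.deriv φ)) f *
            ((X j f * X i f) * (X j f * X i f)) by ring,
            show X j f * X j f * (X i f * X i f) = (X j f * X i f) * (X j f * X i f) by ring]
          exact I_mul_sq_le fun p => h2 f p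
        refine h5.trans ?_
        apply mul_le_mul_of_nonneg_left _ hB2
        have h6 : PP 1 0 f (X i f) ≤ PP 1 1 f f := by
          rw [PP_succ_right]
          exact Finset.single_le_sum (f := fun i => PP 1 0 f (X i f)) (fun i _ => PP_nonneg _ _ _ _)
            (Finset.mem_univ i)
        refine h6.trans ((PP_one_one hA f f).trans ?_)
        apply mul_le_mul_of_nonneg_left _ (by positivity)
        exact mul_le_mul hf hf hN hK
    refine (Finset.sum_le_sum fun i _ => h3 i).trans (le_of_eq ?_)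
    simp only [Finset.sum_const, Finset.card_univ, Fintype.card_fin, nsmul_eq_mul]
    push_cast
    ring
  linarith

theorem SupB.comp_le {A : ℝ} (hA : SupB A) (s : ℕ) {φ : ℝ → ℝ} (hφ : Nice φ) (K : ℝ) :
    ∃ B, ∀ f : SS, NN s f ≤ K → NN s (cmp φ f) ≤ B := by
  have key : ∀ s : ℕ, ∀ {φ : ℝ → ℝ}, Nice φ → ∀ K : ℝ,
      ∃ B, ∀ f : SS, NN (s + 2) f ≤ K → NN (s + 2) (cmp φ f) ≤ B := by
    intro s
    induction s with
    | zero => exact fun hφ K => hA.comp_two hφ K
    | succ s ih =>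
      intro φ hφ K
      obtain ⟨B0, hB0, h0⟩ := hφ.sq_le
      obtain ⟨B1, hB1⟩ := ih hφ.deriv K
      obtain ⟨C, hC⟩ := hA.prod_le (s + 2) (by omega)
      refine ⟨B0 * (4 * Real.pi) + 3 * (|C| * |B1| * |K|), fun f hf => ?_⟩
      rw [show s + 1 + 2 = (s + 2) + 1 by ring] at hf ⊢
      rw [NN_succ]
      have a0 : M 0 (cmp φ f) ≤ B0 * (4 * Real.pi) := I_le_const fun p => h0 f p
      have a1 : ∀ i : Fin 3, NN (s + 2) (X i (cmp φ f)) ≤ |C| * |B1| * |K| := by
        intro i
        rw [hφ.X_cmp]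
        refine (hC _ _).trans ?_
        have h1 : NN (s + 2) (cmp (_root_.deriv φ) f) ≤ |B1| :=
          (hB1 f ((NN_mono (by omega) f).trans hf)).trans (le_abs_self _)
        have h2 : NN (s + 2) (X i f) ≤ |K| :=
          ((NN_X_le (s + 2) f i).trans hf).trans (le_abs_self _)
        have h3 := NN_nonneg (s + 2) (cmp (_root_.deriv φ) f)
        have h4 := NN_nonneg (s + 2) (X i f)
        apply mul_le_mul _ h2 h4 (by positivity)
        exact mul_le_mul (le_abs_self _) h1 h3 (abs_nonneg _)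
      have a2 := Finset.sum_le_sum (s := (Finset.univ : Finset (Fin 3))) fun i _ => a1 i
      simp only [Finset.sum_const, Finset.card_univ, Fintype.card_fin, nsmul_eq_mul] at a2
      push_cast at a2
      linarith
  rcases Nat.lt_or_ge s 2 with h | h
  · obtain ⟨B0, hB0, h0⟩ := hφ.sq_le
    obtain ⟨B1, hB1, h1⟩ := hφ.deriv.sq_le
    refine ⟨B0 * (4 * Real.pi) + B1 * |K|, fun f hf => ?_⟩
    have a0 : M 0 (cmp φ f) ≤ B0 * (4 * Real.pi) := I_le_const fun p => h0 f p
    have hpos : 0 ≤ B1 * |K| := mul_nonneg hB1 (abs_nonneg _)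
    interval_cases s
    · rw [NN_zero]
      linarith
    · have e : ∀ g : SS, NN 1 g = M 0 g + M 1 g := by
        intro g
        unfold NN
        rw [Finset.sum_range_succ, Finset.sum_range_succ]
        simp
      rw [e] at hf ⊢
      have m0 := M_nonneg 0 f
      have a1 : M 1 (cmp φ f) ≤ B1 * |K| := by
        rw [M_succ]
        simp only [M_zero, hφ.X_cmp]
        have h3 : ∀ i : Fin 3, I (cmp (_root_.deriv φ) f * X i f *
            (cmp (_root_.deriv φ) f * X i f)) ≤ B1 * M 0 (X i f) := by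
          intro i
          rw [show cmp (_root_.deriv φ) f * X i f * (cmp (_root_.deriv φ) f * X i f) =
            cmp (_root_.deriv φ) f * cmp (_root_.deriv φ) f * (X i f * X i f) by ring]
          exact I_mul_sq_le fun p => h1 f p
        refine (Finset.sum_le_sum fun i _ => h3 i).trans ?_
        rw [← Finset.mul_sum, ← M_succ]
        apply mul_le_mul_of_nonneg_left _ hB1
        have := le_abs_self K
        linarith
      linarith
  · obtain ⟨t, rfl⟩ := Nat.exists_eq_add_of_le' h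
    exact key t hφ K

/-! ### The energy inequality -/

theorem SupB.energy {A : ℝ} (hA : SupB A) (s : ℕ) (hs : 1 ≤ s) (c₀ K : ℝ) (hc : 0 < c₀) :
    ∃ C, ∀ F G B : SS,
    (∀ p, c₀ ≤ G p) → NN s F ≤ K → NN s G ≤ K → NN s B ≤ K → ∀ Q : ℝ,
    (∀ p, ∑ i, (X i G p) ^ 2 ≤ Q) →
    - Mb s (Lap F) (G * Lap F + B) ≤ -(c₀ / 2) * M (s + 2) F + C * (1 + Q) * (1 + M (s + 1) F) := by
  obtain ⟨t, rfl⟩ := Nat.exists_eq_add_of_le' hs
  -- constants
  set D : ℝ := (2 / c₀) * 4 ^ (t + 1) * (t + 1) with hD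
  have hD0 : 0 ≤ D := by positivity
  obtain ⟨m, hm⟩ := exists_nat_ge (max 1 (D * |K| * (2 * A ^ 2) * (8 / c₀)))
  have hm1 : (1 : ℝ) ≤ m := (le_max_left _ _).trans hm
  have hm1' : 1 ≤ m := by exact_mod_cast hm1
  have hm2 : D * |K| * (2 * A ^ 2) * (8 / c₀) ≤ m := (le_max_right _ _).trans hm
  have hm0 : (0 : ℝ) < m := by linarith
  have hmm : D * |K| * (2 * A ^ 2) * (1 / m ^ 2) ≤ c₀ / 8 := by
    have h1 : (m : ℝ) ≤ m ^ 2 := by nlinarith
    have h2 : D * |K| * (2 * A ^ 2) * (8 / c₀) ≤ m ^ 2 := hm2.trans h1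
    have h3 : D * |K| * (2 * A ^ 2) ≤ (c₀ / 8) * m ^ 2 := by
      have h4 := mul_le_mul_of_nonneg_left h2 (show 0 ≤ c₀ / 8 by positivity)
      have h5 : c₀ / 8 * (D * |K| * (2 * A ^ 2) * (8 / c₀)) = D * |K| * (2 * A ^ 2) := by
        field_simp
      rw [h5] at h4
      exact h4
    have h6 : D * |K| * (2 * A ^ 2) * (1 / m ^ 2) ≤ (c₀ / 8) * m ^ 2 * (1 / m ^ 2) :=
      mul_le_mul_of_nonneg_right h3 (by positivity)
    refine h6.trans (le_of_eq ?_)
    field_simp
  refine ⟨D + D * |K| * (2 * A ^ 2) * (m ^ 2 * |K| + (|K| + 1)) + (2 / c₀) * |K|,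
    fun F G B hG hF hGK hBK Q hQ => ?_⟩
  have hK : 0 ≤ K := (NN_nonneg _ _).trans hF
  have hKa : |K| = K := abs_of_nonneg hK
  rw [hKa] at hmm ⊢
  have hQ0 : 0 ≤ Q := by
    refine le_trans ?_ (hQ (proj 0))
    exact Finset.sum_nonneg fun i _ => sq_nonneg _
  set h := Lap F with hh
  have eM : ∀ k, M k h = M (k + 2) F := fun k => M_Lap k F
  -- the three terms
  rw [Mb_add_right]
  have t1 := coercive (t + 1) hc G hG h (G * h)
  have t2 : - Mb (t + 1) h B ≤ (c₀ / 8) * M (t + 1) h + (2 / c₀) * K := by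
    have h1 := (abs_le.mp (two_Mb_le (t + 1) h B (c := c₀ / 8) (by positivity))).1
    have h4 : 1 / (4 * (c₀ / 8)) = 2 / c₀ := by
      field_simp
      ring
    rw [h4] at h1
    have h5 : (2 / c₀) * M (t + 1) B ≤ (2 / c₀) * K :=
      mul_le_mul_of_nonneg_left ((M_le_NN le_rfl B).trans hBK) (by positivity)
    linarith
  -- the commutator
  have hMs1 := M_nonneg (t + 1 + 1) F
  have hMs2 := M_nonneg (t + 1 + 2) F
  set P : ℝ := Q * M (t + 1 + 1) F + K * (2 * A ^ 2 * (m ^ 2 * K +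
      (1 / m ^ 2) * (K + M (t + 1 + 1) F + M (t + 1 + 2) F))) with hP
  have t3 : Em (t + 1) G (G * h) h ≤ 4 ^ (t + 1) * ((t + 1) * P) := by
    refine (Em_le t G h).trans ?_
    apply mul_le_mul_of_nonneg_left _ (by positivity)
    have h1 : ∀ z ∈ Finset.HasAntidiagonal.antidiagonal t, PP (z.1 + 1) z.2 G h ≤ P := by
      intro z hz
      rw [Finset.HasAntidiagonal.mem_antidiagonal] at hz
      obtain ⟨a, b⟩ := z
      simp only at hz ⊢
      have hp1 : 0 ≤ Q * M (t + 1 + 1) F := mul_nonneg hQ0 hMs1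
      have hp2 : 0 ≤ K * (2 * A ^ 2 * (m ^ 2 * K +
          (1 / m ^ 2) * (K + M (t + 1 + 1) F + M (t + 1 + 2) F))) := by positivity
      rcases Nat.eq_zero_or_pos a with ha | ha
      · subst ha
        have hb : b = t := by omega
        subst hb
        have h2 := PP_one_le hQ b h
        rw [eM b, show b + 2 = b + 1 + 1 by ring] at h2
        rw [Nat.zero_add]
        linarith
      · have h2 := PP_le_right hA (a + 1) b G h m hm1'
        have h3 : M (a + 1) G ≤ K := (M_le_NN (by omega) G).trans hGK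
        have h4 : M b h ≤ K := by
          rw [eM]
          exact (M_le_NN (by omega) F).trans hF
        have h5 : M (b + 2) h ≤ K + M (t + 1 + 1) F + M (t + 1 + 2) F := by
          rw [eM]
          rcases Nat.lt_or_ge (b + 2 + 2) (t + 1 + 1) with h6 | h6
          · have := (M_le_NN (show b + 2 + 2 ≤ t + 1 by omega) F).trans hF
            linarith
          · rcases Nat.eq_or_lt_of_le h6 with h7 | h7
            · rw [← h7]
              linarith
            · have h8 : b + 2 + 2 = t + 1 + 2 := by omega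
              rw [h8]
              linarith
        have h6 := M_nonneg (a + 1) G
        have h7 := M_nonneg b h
        have h8 := M_nonneg (b + 2) h
        have h9 : M (a + 1) G * (2 * A ^ 2 * (m ^ 2 * M b h + (1 / m ^ 2) * M (b + 2) h)) ≤
            K * (2 * A ^ 2 * (m ^ 2 * K +
            (1 / m ^ 2) * (K + M (t + 1 + 1) F + M (t + 1 + 2) F))) := by
          apply mul_le_mul h3 _ (by positivity) hK
          apply mul_le_mul_of_nonneg_left _ (by positivity)
          apply add_le_add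
          · exact mul_le_mul_of_nonneg_left h4 (by positivity)
          · exact mul_le_mul_of_nonneg_left h5 (by positivity)
        linarith
    refine (Finset.sum_le_sum h1).trans (le_of_eq ?_)
    rw [Finset.sum_const, Finset.Nat.card_antidiagonal, nsmul_eq_mul]
    push_cast
    ring
  have t4 : (2 / c₀) * Em (t + 1) G (G * h) h ≤ D * P := by
    have h1 := mul_le_mul_of_nonneg_left t3 (show 0 ≤ 2 / c₀ by positivity)
    refine h1.trans (le_of_eq ?_)
    rw [hD]
    ring
  rw [eM] at t1 t2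
  have hm3 : (1 : ℝ) / m ^ 2 ≤ 1 := by
    rw [div_le_one (by positivity)]
    nlinarith
  have hA2 : 0 ≤ 2 * A ^ 2 := by positivity
  set x := M (t + 1 + 1) F
  set y := M (t + 1 + 2) F
  set W := D * K * (2 * A ^ 2) with hW
  have hW0 : 0 ≤ W := by positivity
  have t5 : D * P ≤ D * (Q * x) + W * (m ^ 2 * K + (K + x)) + (c₀ / 8) * y := by
    have h1 : D * P = D * (Q * x) + W * (m ^ 2 * K + (1 / m ^ 2) * (K + x)) +
        W * (1 / m ^ 2) * y := by
      rw [hP, hW]
      ring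
    rw [h1]
    have h2 : W * (1 / m ^ 2) * y ≤ (c₀ / 8) * y := mul_le_mul_of_nonneg_right hmm hMs2
    have h3 : W * (m ^ 2 * K + (1 / m ^ 2) * (K + x)) ≤ W * (m ^ 2 * K + (K + x)) := by
      apply mul_le_mul_of_nonneg_left _ hW0
      have : (1 / (m : ℝ) ^ 2) * (K + x) ≤ 1 * (K + x) :=
        mul_le_mul_of_nonneg_right hm3 (by linarith)
      linarith
    linarith
  have e1 : D * (Q * x) ≤ D * ((1 + Q) * (1 + x)) := by
    apply mul_le_mul_of_nonneg_left _ hD0
    nlinarith
  have e0 : 1 ≤ (1 + Q) * (1 + x) := by nlinarith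
  have e2 : W * (m ^ 2 * K + (K + x)) ≤ W * (m ^ 2 * K + (K + 1)) * ((1 + Q) * (1 + x)) := by
    rw [mul_assoc W]
    apply mul_le_mul_of_nonneg_left _ hW0
    have h1 : 0 ≤ (m : ℝ) ^ 2 * K := by positivity
    have h2 : (m : ℝ) ^ 2 * K ≤ (m : ℝ) ^ 2 * K * ((1 + Q) * (1 + x)) := le_mul_of_one_le_right h1 e0
    have h3 : K ≤ K * ((1 + Q) * (1 + x)) := le_mul_of_one_le_right hK e0
    have h4 : x ≤ (1 + Q) * (1 + x) := by nlinarith
    nlinarith
  have e3 : (2 / c₀) * K ≤ (2 / c₀) * K * ((1 + Q) * (1 + x)) :=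
    le_mul_of_one_le_right (by positivity) e0
  have e4 : (D + W * (m ^ 2 * K + (K + 1)) + (2 / c₀) * K) * (1 + Q) * (1 + x) =
      D * ((1 + Q) * (1 + x)) + W * (m ^ 2 * K + (K + 1)) * ((1 + Q) * (1 + x)) +
      (2 / c₀) * K * ((1 + Q) * (1 + x)) := by ring
  rw [e4]
  have e5 : 0 ≤ c₀ * y := mul_nonneg hc.le hMs2
  linarith

end Pool.Agent.helper68.S2
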