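import Mathlib
import Pool.Agent.helper9.S2.Norms

/-!
# Tools for the regularity estimates (module R): cutoffs, comparison, derivatives of the norms
-/

set_option autoImplicit false

open MeasureTheory Metric Set Filter
open scoped ContDiff Topology

namespace Pool.Agent.helper68.S2

/-! ### Nice functions -/

theorem exists_nice_eq {ψ : ℝ → ℝ} {s : Set ℝ} (hs : IsOpen s) (hψ : ContDiffOn ℝ ∞ ψ s) {a b : ℝ}
    (hab : Icc a b ⊆ s) : ∃ φ, Nice φ ∧ ∀ y ∈ Icc a b, φ y = ψ y := by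
  rcases lt_or_ge b a with hlt | hle
  · refine ⟨fun _ => 0, ⟨contDiff_const, 0, ?_⟩, fun y hy => ?_⟩
    · simp only [sub_zero]
      exact HasCompactSupport.zero
    · exact absurd (hy.1.trans hy.2) (not_le.2 hlt)
  obtain ⟨δ, hδ, hδs⟩ := (isCompact_Icc (a := a) (b := b)).exists_cthickening_subset_open hs hab
  set m : ℝ := (a + b) / 2 with hm
  let f : ContDiffBump m := ⟨(b - a) / 2 + δ / 2, (b - a) / 2 + δ, by linarith, by linarith⟩
  have hball : closedBall m ((b - a) / 2 + δ) ⊆ s := by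
    refine Subset.trans ?_ hδs
    rw [Real.closedBall_eq_Icc]
    intro y hy
    have h1 : a - δ ≤ y := by have := hy.1; linarith
    have h2 : y ≤ b + δ := by have := hy.2; linarith
    rw [mem_cthickening_iff]
    -- the nearest point
    have h3 : ∃ z ∈ Icc a b, dist y z ≤ δ := by
      rcases le_total y a with h | h
      · exact ⟨a, ⟨le_rfl, hle⟩, by rw [Real.dist_eq, abs_le]; constructor <;> linarith⟩
      · rcases le_total y b with h' | h'
        · exact ⟨y, ⟨h, h'⟩, by rw [dist_self]; exact hδ.le⟩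
        · exact ⟨b, ⟨hle, le_rfl⟩, by rw [Real.dist_eq, abs_le]; constructor <;> linarith⟩
    obtain ⟨z, hz, hyz⟩ := h3
    refine (infEDist_le_edist_of_mem hz).trans ?_
    rw [edist_dist]
    exact ENNReal.ofReal_le_ofReal hyz
  refine ⟨fun y => f y * ψ y, ⟨?_, 0, ?_⟩, fun y hy => ?_⟩
  · rw [contDiff_iff_contDiffAt]
    intro y
    by_cases hy : y ∈ s
    · exact f.contDiff.contDiffAt.mul ((hψ y hy).contDiffAt (hs.mem_nhds hy))
    · have hy' : y ∉ tsupport f := by
        rw [f.tsupport_eq]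
        exact fun h => hy (hball h)
      have h0 : (fun y => f y * ψ y) =ᶠ[𝓝 y] fun _ => 0 := by
        have := notMem_tsupport_iff_eventuallyEq.1 hy'
        filter_upwards [this] with z hz
        rw [hz, Pi.zero_apply, zero_mul]
      exact contDiffAt_const.congr_of_eventuallyEq h0
  · simp only [sub_zero]
    exact f.hasCompactSupport.mul_right
  · have : f y = 1 := by
      apply f.one_of_mem_closedBall
      rw [Real.closedBall_eq_Icc]
      constructor
      · have := hy.1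
        change m - ((b - a) / 2 + δ / 2) ≤ y
        linarith
      · have := hy.2
        change y ≤ m + ((b - a) / 2 + δ / 2)
        linarith
    simp only [this, one_mul]

theorem Nice.comp {φ ψ : ℝ → ℝ} (hφ : Nice φ) (hψ : ContDiff ℝ ∞ ψ) : Nice (fun y => ψ (φ y)) := by
  obtain ⟨h1, c, h2⟩ := hφ
  refine ⟨hψ.comp h1, ψ c, ?_⟩
  have h3 : HasCompactSupport ((fun x => ψ (x + c) - ψ c) ∘ fun y => φ y - c) :=
    h2.comp_left (g := fun x => ψ (x + c) - ψ c) (by simp)
  have e : ((fun x => ψ (x + c) - ψ c) ∘ fun y => φ y - c) = fun y => ψ (φ y) - ψ c := by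
    funext y
    simp
  rw [e] at h3
  exact h3

theorem nice_const (c : ℝ) : Nice (fun _ => c) := by
  refine ⟨contDiff_const, c, ?_⟩
  simp only [sub_self]
  exact HasCompactSupport.zero

theorem Nice.mul {φ ψ : ℝ → ℝ} (hφ : Nice φ) (hψ : Nice ψ) : Nice (fun y => φ y * ψ y) := by
  obtain ⟨h1, c, h2⟩ := hφ
  obtain ⟨h3, d, h4⟩ := hψ
  refine ⟨h1.mul h3, c * d, ?_⟩
  have e : (fun y => φ y * ψ y - c * d) = fun y => (φ y - c) * ψ y + c * (ψ y - d) := by
    funext y
    ring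
  rw [e]
  exact (h2.mul_right (f' := ψ)).add (h4.mul_left (f := fun _ => c))

theorem exists_cut {c C : ℝ} (hc : 0 < c) (hC : c ≤ C) : ∃ χ : ℝ → ℝ, Nice χ ∧
    (∀ y ∈ Icc c C, χ y = y) ∧ ∃ c' > 0, ∀ y, c' ≤ χ y := by
  set m : ℝ := (c + C) / 2 with hm
  let f : ContDiffBump m := ⟨(C - c) / 2 + c / 4, (C - c) / 2 + c / 2, by linarith, by linarith⟩
  refine ⟨fun y => m + (y - m) * f y, ⟨?_, m, ?_⟩, fun y hy => ?_, c / 2, by positivity,
    fun y => ?_⟩
  · exact contDiff_const.add ((contDiff_id.sub contDiff_const).mul f.contDiff)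
  · have e : (fun y => m + (y - m) * f y - m) = fun y => (y - m) * f y := by
      funext y
      ring
    rw [e]
    exact f.hasCompactSupport.mul_left (f := fun y => y - m)
  · have : f y = 1 := by
      apply f.one_of_mem_closedBall
      rw [Real.closedBall_eq_Icc]
      constructor
      · have := hy.1
        change m - ((C - c) / 2 + c / 4) ≤ y
        linarith
      · have := hy.2
        change y ≤ m + ((C - c) / 2 + c / 4)
        linarith
    simp only [this, mul_one]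
    ring
  · have h0 := f.nonneg (x := y)
    have h1 := f.le_one (x := y)
    change c / 2 ≤ m + (y - m) * f y
    by_cases hy : y ∈ ball m ((C - c) / 2 + c / 2)
    · rw [Real.ball_eq_Ioo] at hy
      have h2 : c / 2 ≤ y := by have := hy.1; linarith
      have h3 : c / 2 ≤ m := by linarith
      have e : m + (y - m) * f y = (1 - f y) * m + f y * y := by ring
      rw [e]
      nlinarith
    · have : f y = 0 := f.zero_of_le_dist (by
        rw [mem_ball, not_lt] at hy
        exact hy)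
      rw [this]
      linarith

/-! ### Comparison for ordinary differential inequalities -/

theorem deriv_right {f : ℝ → ℝ} {f' T t : ℝ} (h : HasDerivWithinAt f f' (Icc 0 T) t)
    (ht : t ∈ Ico 0 T) : HasDerivWithinAt f f' (Ici t) t := by
  apply h.mono_of_mem_nhdsWithin
  exact Icc_mem_nhdsGE_of_mem ht

theorem ode_max {T K : ℝ} {f f' : ℝ → ℝ}
    (hd : ∀ t ∈ Icc (0 : ℝ) T, HasDerivWithinAt f (f' t) (Icc 0 T) t)
    (h : ∀ t ∈ Icc (0 : ℝ) T, K < f t → f' t ≤ 0) : ∀ t ∈ Icc (0 : ℝ) T, f t ≤ max (f 0) K := by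
  intro t ht
  have key : ∀ ε : ℝ, 0 < ε → f t ≤ max (f 0) K + ε * (1 + t) := by
    intro ε hε
    have h1 := image_le_of_deriv_right_lt_deriv_boundary' (f := f) (f' := f') (a := 0) (b := T)
      (fun s hs => (hd s hs).continuousWithinAt) (fun s hs => deriv_right (hd s ⟨hs.1, hs.2.le⟩) hs)
      (B := fun s => max (f 0) K + ε * (1 + s)) (B' := fun _ => ε)
      (by
        have := le_max_left (f 0) K
        change f 0 ≤ max (f 0) K + ε * (1 + 0)
        linarith)
      (by fun_prop)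
      (fun s hs => by
        have h2 : HasDerivAt (fun s : ℝ => max (f 0) K + ε * (1 + s)) (ε * 1) s :=
          (((hasDerivAt_id s).const_add 1).const_mul ε).const_add _
        rw [mul_one] at h2
        exact h2.hasDerivWithinAt)
      (fun s hs he => by
        have h3 : K < f s := by
          rw [he]
          have h4 := le_max_right (f 0) K
          have h5 : 0 < ε * (1 + s) := mul_pos hε (by linarith [hs.1])
          linarith
        exact (h s ⟨hs.1, hs.2.le⟩ h3).trans_lt hε)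
    exact h1 ht
  have ht0 : 0 ≤ t := ht.1
  refine le_of_forall_pos_le_add fun ε hε => ?_
  have h1 := key (ε / (1 + t)) (by positivity)
  rwa [div_mul_cancel₀ _ (by positivity)] at h1

theorem ode_growth {T C : ℝ} (hC : 0 ≤ C) {f f' : ℝ → ℝ}
    (hd : ∀ t ∈ Icc (0 : ℝ) T, HasDerivWithinAt f (f' t) (Icc 0 T) t)
    (h0 : 0 ≤ 1 + f 0)
    (h : ∀ t ∈ Icc (0 : ℝ) T, f' t ≤ C * (1 + f t)) :
    ∀ t ∈ Icc (0 : ℝ) T, f t ≤ (1 + f 0) * Real.exp (C * T) := by
  intro t ht
  have h1 : ∀ t ∈ Icc (0 : ℝ) T, HasDerivWithinAt (fun t => (1 + f t) * Real.exp (-(C * t)))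
      (f' t * Real.exp (-(C * t)) + (1 + f t) * (Real.exp (-(C * t)) * -(C * 1))) (Icc 0 T) t := by
    intro t ht
    have h2 : HasDerivAt (fun t : ℝ => Real.exp (-(C * t))) (Real.exp (-(C * t)) * -(C * 1)) t :=
      (((hasDerivAt_id t).const_mul C).neg).exp
    exact ((hd t ht).const_add 1).mul h2.hasDerivWithinAt
  have h3 := ode_max (K := (1 + f 0)) h1 (fun t ht _ => by
    have h4 := h t ht
    have h5 := Real.exp_pos (-(C * t))
    have h6 : f' t * Real.exp (-(C * t)) + (1 + f t) * (Real.exp (-(C * t)) * -(C * 1)) =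
      (f' t - C * (1 + f t)) * Real.exp (-(C * t)) := by ring
    rw [h6]
    exact mul_nonpos_of_nonpos_of_nonneg (by linarith) h5.le) t ht
  simp only [mul_zero, neg_zero, Real.exp_zero, mul_one, max_self] at h3
  have h4 : (1 + f t) ≤ (1 + f 0) * Real.exp (C * t) := by
    have h5 := mul_le_mul_of_nonneg_right h3 (Real.exp_pos (C * t)).le
    rw [mul_assoc, ← Real.exp_add, neg_add_cancel, Real.exp_zero, mul_one] at h5
    exact h5
  have h6 : Real.exp (C * t) ≤ Real.exp (C * T) :=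
    Real.exp_le_exp.2 (mul_le_mul_of_nonneg_left ht.2 hC)
  have h7 := mul_le_mul_of_nonneg_left h6 h0
  linarith

/-- the Lyapunov argument: `x' ≤ -c₁ y + C₁`, `y' ≤ A (1 + y)²` -/
theorem lyap (c₁ C₁ A B Y : ℝ) (hc : 0 < c₁) : ∃ K : ℝ, ∀ (T : ℝ) (x x' y y' : ℝ → ℝ),
    (∀ t ∈ Icc (0 : ℝ) T, HasDerivWithinAt x (x' t) (Icc 0 T) t) →
    (∀ t ∈ Icc (0 : ℝ) T, HasDerivWithinAt y (y' t) (Icc 0 T) t) →
    (∀ t ∈ Icc (0 : ℝ) T, 0 ≤ x t ∧ x t ≤ B ∧ 0 ≤ y t) →
    (∀ t ∈ Icc (0 : ℝ) T, x' t ≤ -c₁ * y t + C₁) →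
    (∀ t ∈ Icc (0 : ℝ) T, y' t ≤ A * (1 + y t) ^ 2) → y 0 ≤ Y →
    ∀ t ∈ Icc (0 : ℝ) T, y t ≤ K := by
  set β : ℝ := (|A| + 1) / c₁ with hβ
  have hβ0 : 0 < β := by positivity
  set C2 : ℝ := |A| + β * |C₁| with hC2
  have hC20 : 0 ≤ C2 := by positivity
  refine ⟨Real.exp (max (Real.log (1 + |Y|) + β * |B|) (Real.log (1 + C2) + β * |B|)), ?_⟩
  intro T x x' y y' hx hy hb hx' hy' hY t ht
  have h0 : (0 : ℝ) ∈ Icc (0 : ℝ) T := ⟨le_rfl, ht.1.trans ht.2⟩
  have hder : ∀ t ∈ Icc (0 : ℝ) T, HasDerivWithinAt (fun t => Real.log (1 + y t) + β * x t)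
      (y' t / (1 + y t) + β * x' t) (Icc 0 T) t := by
    intro t ht
    have h1 := (hb t ht).2.2
    exact (((hy t ht).const_add 1).log (by linarith)).add ((hx t ht).const_mul β)
  have key := ode_max (K := Real.log (1 + C2) + β * |B|) hder (fun t ht hgt => by
    obtain ⟨hx0, hxB, hy0⟩ := hb t ht
    have h1 : x t ≤ |B| := hxB.trans (le_abs_self B)
    have h2 : β * x t ≤ β * |B| := mul_le_mul_of_nonneg_left h1 hβ0.le
    have h3 : Real.log (1 + C2) < Real.log (1 + y t) := by linarith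
    have h4 : C2 < y t := by
      have := (Real.log_lt_log_iff (by linarith) (by linarith)).1 h3
      linarith
    have h5 : y' t / (1 + y t) ≤ |A| * (1 + y t) := by
      rw [div_le_iff₀ (by linarith)]
      refine (hy' t ht).trans ?_
      have h6 : A * (1 + y t) ^ 2 ≤ |A| * (1 + y t) ^ 2 :=
        mul_le_mul_of_nonneg_right (le_abs_self A) (sq_nonneg _)
      linarith
    have h6 : β * x' t ≤ -(|A| + 1) * y t + β * |C₁| := by
      have h7 := mul_le_mul_of_nonneg_left (hx' t ht) hβ0.le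
      have h8 : β * (-c₁ * y t + C₁) = -(|A| + 1) * y t + β * C₁ := by
        rw [hβ]
        field_simp
      rw [h8] at h7
      have h9 : β * C₁ ≤ β * |C₁| := mul_le_mul_of_nonneg_left (le_abs_self _) hβ0.le
      linarith
    linarith) t ht
  have h1 : Real.log (1 + y t) ≤ max (Real.log (1 + |Y|) + β * |B|)
      (Real.log (1 + C2) + β * |B|) := by
    have h2 : 0 ≤ β * x t := mul_nonneg hβ0.le (hb t ht).1
    have h3 : Real.log (1 + y 0) + β * x 0 ≤ Real.log (1 + |Y|) + β * |B| := by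
      have h4 : x 0 ≤ |B| := (hb 0 h0).2.1.trans (le_abs_self B)
      have h5 : β * x 0 ≤ β * |B| := mul_le_mul_of_nonneg_left h4 hβ0.le
      have h6 := (hb 0 h0).2.2
      have h7 : y 0 ≤ |Y| := hY.trans (le_abs_self Y)
      have h8 := Real.log_le_log (show 0 < 1 + y 0 by linarith) (show 1 + y 0 ≤ 1 + |Y| by linarith)
      linarith
    have h4 : max (Real.log (1 + y 0) + β * x 0) (Real.log (1 + C2) + β * |B|) ≤
        max (Real.log (1 + |Y|) + β * |B|) (Real.log (1 + C2) + β * |B|) := max_le_max h3 le_rfl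
    linarith
  have hy0 := (hb t ht).2.2
  have h2 := Real.exp_le_exp.2 h1
  rw [Real.exp_log (by linarith)] at h2
  linarith

/-- the second Lyapunov argument, with growth: `x' ≤ -c₁ w + C₁`, `z' ≤ A (1 + z) (1 + w)` -/
theorem lyap2 (c₁ C₁ A B Y T : ℝ) (hc : 0 < c₁) (hT : 0 ≤ T) : ∃ K : ℝ, ∀ (x x' z z' w : ℝ → ℝ),
    (∀ t ∈ Icc (0 : ℝ) T, HasDerivWithinAt x (x' t) (Icc 0 T) t) →
    (∀ t ∈ Icc (0 : ℝ) T, HasDerivWithinAt z (z' t) (Icc 0 T) t) →
    (∀ t ∈ Icc (0 : ℝ) T, 0 ≤ x t ∧ x t ≤ B ∧ 0 ≤ z t ∧ 0 ≤ w t) →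
    (∀ t ∈ Icc (0 : ℝ) T, x' t ≤ -c₁ * w t + C₁) →
    (∀ t ∈ Icc (0 : ℝ) T, z' t ≤ A * ((1 + z t) * (1 + w t))) → z 0 ≤ Y →
    ∀ t ∈ Icc (0 : ℝ) T, z t ≤ K := by
  set β : ℝ := |A| / c₁ with hβ
  have hβ0 : 0 ≤ β := by positivity
  set C2 : ℝ := |A| + β * |C₁| with hC2
  have hC20 : 0 ≤ C2 := by positivity
  refine ⟨Real.exp (Real.log (1 + |Y|) + β * |B| + C2 * T), ?_⟩
  intro x x' z z' w hx hz hb hx' hz' hY t ht
  have h0 : (0 : ℝ) ∈ Icc (0 : ℝ) T := ⟨le_rfl, hT⟩
  have hder : ∀ t ∈ Icc (0 : ℝ) T, HasDerivWithinAt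
      (fun t => Real.log (1 + z t) + β * x t - C2 * t)
      (z' t / (1 + z t) + β * x' t - C2 * 1) (Icc 0 T) t := by
    intro t ht
    have h1 := (hb t ht).2.2.1
    exact ((((hz t ht).const_add 1).log (by linarith)).add ((hx t ht).const_mul β)).sub
      ((hasDerivWithinAt_id t _).const_mul C2)
  have key := ode_max (K := Real.log (1 + z 0) + β * x 0 - C2 * 0) hder (fun t ht _ => by
    obtain ⟨hx0, hxB, hz0, hw0⟩ := hb t ht
    have h5 : z' t / (1 + z t) ≤ |A| * (1 + w t) := by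
      rw [div_le_iff₀ (by linarith)]
      refine (hz' t ht).trans ?_
      have h6 : A * ((1 + z t) * (1 + w t)) ≤ |A| * ((1 + z t) * (1 + w t)) :=
        mul_le_mul_of_nonneg_right (le_abs_self A) (by positivity)
      linarith
    have h6 : β * x' t ≤ -|A| * w t + β * |C₁| := by
      have h7 := mul_le_mul_of_nonneg_left (hx' t ht) hβ0
      have h8 : β * (-c₁ * w t + C₁) = -|A| * w t + β * C₁ := by
        rw [hβ]
        field_simp
      rw [h8] at h7
      have h9 : β * C₁ ≤ β * |C₁| := mul_le_mul_of_nonneg_left (le_abs_self _) hβ0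
      linarith
    linarith) t ht
  simp only [max_self, mul_zero, sub_zero] at key
  have h1 : Real.log (1 + z t) ≤ Real.log (1 + |Y|) + β * |B| + C2 * T := by
    have h2 : 0 ≤ β * x t := mul_nonneg hβ0 (hb t ht).1
    have h4 : x 0 ≤ |B| := (hb 0 h0).2.1.trans (le_abs_self B)
    have h5 : β * x 0 ≤ β * |B| := mul_le_mul_of_nonneg_left h4 hβ0
    have h6 := (hb 0 h0).2.2.1
    have h7 : z 0 ≤ |Y| := hY.trans (le_abs_self Y)
    have h8 := Real.log_le_log (show 0 < 1 + z 0 by linarith) (show 1 + z 0 ≤ 1 + |Y| by linarith)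
    have h9 : C2 * t ≤ C2 * T := mul_le_mul_of_nonneg_left ht.2 hC20
    linarith
  have hz0 := (hb t ht).2.2.1
  have h2 := Real.exp_le_exp.2 h1
  rw [Real.exp_log (by linarith)] at h2
  linarith

/-! ### Derivatives of the norms along curves -/

theorem dMb {J : Set ℝ} (hJ : Convex ℝ J) (s : ℕ) {u v u' v' : ℝ → SS} (hu : CC J u) (hv : CC J v)
    (hu' : CC J u') (hv' : CC J v') (du : CD J u u') (dv : CD J v v') {t : ℝ} (ht : t ∈ J) :
    HasDerivWithinAt (fun t => Mb s (u t) (v t)) (Mb s (u' t) (v t) + Mb s (u t) (v' t)) J t := by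
  induction s generalizing u v u' v' with
  | zero =>
    have h1 := I_deriv hJ ((du.mul dv) 0) ((((hu'.mul hv).add (hu.mul hv'))) 0) ht
    rw [map_add] at h1
    exact h1
  | succ s ih =>
    simp only [Mb_succ]
    rw [← Finset.sum_add_distrib]
    exact HasDerivWithinAt.fun_sum fun i _ => ih (hu.X i) (hv.X i) (hu'.X i) (hv'.X i) (du.X i)
      (dv.X i)

theorem dM {J : Set ℝ} (hJ : Convex ℝ J) (s : ℕ) {u u' : ℝ → SS} (hu : CC J u)
    (hu' : CC J u') (du : CD J u u') {t : ℝ} (ht : t ∈ J) :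
    HasDerivWithinAt (fun t => M s (u t)) (2 * Mb s (u t) (u' t)) J t := by
  have h := dMb hJ s hu hu hu' hu' du du ht
  refine h.congr_deriv ?_
  rw [Mb_comm s (u' t) (u t)]
  ring

end Pool.Agent.helper68.S2
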