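import Mathlib
import Pool.Agent.helper9.S2N
import Pool.Agent.helper9.S2.Tools

/-!
# Regularity estimates: uniformly bounded families, one step of the energy method
-/

set_option autoImplicit false

open MeasureTheory Metric Set Filter
open scoped ContDiff Topology

namespace Pool.Agent.helper68.S2

/-! ### Arithmetic of the norms -/

theorem NN_smul (s : ℕ) (c : ℝ) (f : SS) : NN s (c • f) = c ^ 2 * NN s f := by
  unfold NN
  simp only [M_smul]
  rw [Finset.mul_sum]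

theorem NN_add_le (s : ℕ) (f g : SS) : NN s (f + g) ≤ 2 * NN s f + 2 * NN s g := by
  unfold NN
  rw [Finset.mul_sum, Finset.mul_sum, ← Finset.sum_add_distrib]
  exact Finset.sum_le_sum fun k _ => M_add_le k f g

theorem NN_neg (s : ℕ) (f : SS) : NN s (-f) = NN s f := by
  have := NN_smul s (-1) f
  rw [neg_one_smul] at this
  rw [this]
  ring

theorem NN_succ_right (s : ℕ) (f : SS) : NN (s + 1) f = NN s f + M (s + 1) f :=
  Finset.sum_range_succ _ _

theorem NN_one (f : SS) : NN 1 f = M 0 f + M 1 f := by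
  rw [NN_succ_right, NN_zero]

theorem M_one_eq (f : SS) : M 1 f = ∑ i, I (X i f * X i f) := rfl

theorem I_sum_sq (f : SS) : M 1 f = I (∑ i, X i f * X i f) := by
  rw [map_sum]
  rfl

/-- the pointwise squared gradient -/
noncomputable def gp (f : SS) (p : Sph) : ℝ := ∑ i, (X i f p) ^ 2

theorem gp_nonneg (f : SS) (p : Sph) : 0 ≤ gp f p := Finset.sum_nonneg fun i _ => sq_nonneg _

theorem M_one_le {f : SS} {C : ℝ} (h : ∀ p, gp f p ≤ C) : M 1 f ≤ C * (4 * Real.pi) := by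
  rw [I_sum_sq]
  apply I_le_const
  intro p
  rw [ss_sum]
  refine le_trans (le_of_eq ?_) (h p)
  unfold gp
  exact Finset.sum_congr rfl fun i _ => by rw [ss_mul, sq]

theorem M_zero_le {f : SS} {C : ℝ} (h : ∀ p, |f p| ≤ C) : M 0 f ≤ C ^ 2 * (4 * Real.pi) := by
  rw [M_zero]
  apply I_le_const
  intro p
  rw [ss_mul, ← abs_mul_abs_self, ← sq]
  exact pow_le_pow_left₀ (abs_nonneg _) (h p) 2

/-! ### Uniformly bounded families -/

/-- a family bounded in sup norm and in the `s`-th Sobolev norm -/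
def UB {ι : Type*} (s : ℕ) (f : ι → SS) : Prop :=
  ∃ K, ∀ i, (∀ p, |f i p| ≤ K) ∧ NN s (f i) ≤ K

/-- a bounded family of real numbers -/
def RB {ι : Type*} (a : ι → ℝ) : Prop := ∃ K, ∀ i, |a i| ≤ K

section Families

variable {ι : Type*} {s : ℕ} {f g : ι → SS} {a b : ι → ℝ}

theorem UB.nonneg (h : UB s f) : ∃ K, 0 ≤ K ∧ ∀ i, (∀ p, |f i p| ≤ K) ∧ NN s (f i) ≤ K := by
  obtain ⟨K, hK⟩ := h
  exact ⟨|K|, abs_nonneg K, fun i => ⟨fun p => ((hK i).1 p).trans (le_abs_self K),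
    (hK i).2.trans (le_abs_self K)⟩⟩

theorem UB.of_le {K₁ K₂ : ℝ} (h1 : ∀ i p, |f i p| ≤ K₁) (h2 : ∀ i, NN s (f i) ≤ K₂) : UB s f :=
  ⟨max K₁ K₂, fun i => ⟨fun p => (h1 i p).trans (le_max_left _ _), (h2 i).trans (le_max_right _ _)⟩⟩

theorem UB.of_NN (hs : 2 ≤ s) {K : ℝ} (h : ∀ i, NN s (f i) ≤ K) : UB s f := by
  refine UB.of_le (K₁ := √(2 * |K|)) (K₂ := K) (fun i p => ?_) h
  apply Real.le_sqrt_of_sq_le
  refine (sup_le (f i) p).trans ?_
  have h1 := (NN_mono hs (f i)).trans ((h i).trans (le_abs_self K))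
  linarith

theorem UB.const (f₀ : SS) : UB s (fun _ : ι => f₀) := by
  obtain ⟨C, hC⟩ := (isCompact_univ (X := Sph)).exists_bound_of_continuousOn
    (continuous_ss f₀).continuousOn
  exact UB.of_le (K₁ := C) (K₂ := NN s f₀) (fun _ p => by
    have := hC p (mem_univ p)
    rwa [Real.norm_eq_abs] at this) fun _ => le_rfl

theorem UB.add (hf : UB s f) (hg : UB s g) : UB s (fun i => f i + g i) := by
  obtain ⟨K, hK0, hK⟩ := hf.nonneg
  obtain ⟨L, hL0, hL⟩ := hg.nonneg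
  refine UB.of_le (K₁ := K + L) (K₂ := 2 * K + 2 * L) (fun i p => ?_) fun i => ?_
  · rw [ss_add]
    have := (hK i).1 p
    have := (hL i).1 p
    exact (abs_add_le _ _).trans (by linarith)
  · have := (hK i).2
    have := (hL i).2
    exact (NN_add_le s _ _).trans (by linarith)

theorem UB.neg (hf : UB s f) : UB s (fun i => - f i) := by
  obtain ⟨K, hK⟩ := hf
  exact ⟨K, fun i => ⟨fun p => by rw [ss_neg, abs_neg]; exact (hK i).1 p,
    by rw [NN_neg]; exact (hK i).2⟩⟩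

theorem UB.sub (hf : UB s f) (hg : UB s g) : UB s (fun i => f i - g i) := by
  simp only [sub_eq_add_neg]
  exact hf.add hg.neg

theorem UB.smul (ha : RB a) (hf : UB s f) : UB s (fun i => a i • f i) := by
  obtain ⟨K, hK0, hK⟩ := hf.nonneg
  obtain ⟨A, hA⟩ := ha
  refine UB.of_le (K₁ := |A| * K) (K₂ := A ^ 2 * K) (fun i p => ?_) fun i => ?_
  · rw [ss_smul, abs_mul]
    exact mul_le_mul ((hA i).trans (le_abs_self A)) ((hK i).1 p) (abs_nonneg _) (abs_nonneg _)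
  · rw [NN_smul]
    have h1 : a i ^ 2 ≤ A ^ 2 := by
      rw [← sq_abs (a i)]
      exact pow_le_pow_left₀ (abs_nonneg _) (hA i) 2
    exact mul_le_mul h1 (hK i).2 (NN_nonneg _ _) (sq_nonneg A)

theorem UB.mul (hs : 1 ≤ s) (hf : UB s f) (hg : UB s g) : UB s (fun i => f i * g i) := by
  obtain ⟨K, hK0, hK⟩ := hf.nonneg
  obtain ⟨L, hL0, hL⟩ := hg.nonneg
  have hsup : ∀ i p, |(f i * g i) p| ≤ K * L := by
    intro i p
    rw [ss_mul, abs_mul]
    exact mul_le_mul ((hK i).1 p) ((hL i).1 p) (abs_nonneg _) hK0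
  rcases Nat.lt_or_ge s 2 with h | h
  · have hs1 : s = 1 := by omega
    subst hs1
    refine UB.of_le (K₁ := K * L) (K₂ := (K * L) ^ 2 * (4 * Real.pi) + 4 * (K ^ 2 * L + L ^ 2 * K))
      hsup fun i => ?_
    rw [NN_one]
    have h1 := M_zero_le (hsup i)
    have h2 := M_mul_le 1 (f i) (g i)
    rw [Finset.Nat.sum_antidiagonal_succ] at h2
    simp only [Finset.Nat.antidiagonal_zero, Finset.sum_singleton, zero_add, pow_one] at h2
    have sqb : ∀ {x C : ℝ}, |x| ≤ C → x * x ≤ C ^ 2 := by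
      intro x C hx
      rw [← abs_mul_abs_self, ← sq]
      exact pow_le_pow_left₀ (abs_nonneg _) hx 2
    have h3 := PP_zero_le (f := f i) (B := K ^ 2) (fun p => sqb ((hK i).1 p)) 1 (g i)
    have h4 := PP_zero_le (f := g i) (B := L ^ 2) (fun p => sqb ((hL i).1 p)) 1 (f i)
    rw [PP_symm 0 1 (g i) (f i)] at h4
    have h5 : M 1 (g i) ≤ L := (M_le_NN le_rfl _).trans (hL i).2
    have h6 : M 1 (f i) ≤ K := (M_le_NN le_rfl _).trans (hK i).2
    have h7 : K ^ 2 * M 1 (g i) ≤ K ^ 2 * L := mul_le_mul_of_nonneg_left h5 (sq_nonneg K)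
    have h8 : L ^ 2 * M 1 (f i) ≤ L ^ 2 * K := mul_le_mul_of_nonneg_left h6 (sq_nonneg L)
    linarith
  · obtain ⟨C, hC⟩ := prod_le s h
    refine UB.of_le (K₁ := K * L) (K₂ := |C| * K * L) hsup fun i => ?_
    refine (hC _ _).trans ?_
    apply mul_le_mul _ (hL i).2 (NN_nonneg _ _) (by positivity)
    exact mul_le_mul (le_abs_self C) (hK i).2 (NN_nonneg _ _) (abs_nonneg _)

theorem UB.comp {φ : ℝ → ℝ} (hφ : Nice φ) (hf : UB s f) : UB s (fun i => cmp φ (f i)) := by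
  obtain ⟨K, hK⟩ := hf
  obtain ⟨B, hB⟩ := comp_le s hφ K
  obtain ⟨L, hL⟩ := hφ.bdd
  exact UB.of_le (K₁ := L) (K₂ := B) (fun i p => by rw [hφ.cmp_apply]; exact hL _)
    fun i => hB _ (hK i).2

theorem UB.congr (hf : UB s f) (h : ∀ i, g i = f i) : UB s g := by
  have : g = f := funext h
  rw [this]
  exact hf

theorem UB.mono {s' : ℕ} (h : s' ≤ s) (hf : UB s f) : UB s' f := by
  obtain ⟨K, hK⟩ := hf
  exact ⟨K, fun i => ⟨(hK i).1, (NN_mono h _).trans (hK i).2⟩⟩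

theorem RB.const (c : ℝ) : RB (fun _ : ι => c) := ⟨|c|, fun _ => le_rfl⟩

theorem RB.mul (ha : RB a) (hb : RB b) : RB (fun i => a i * b i) := by
  obtain ⟨K, hK⟩ := ha
  obtain ⟨L, hL⟩ := hb
  refine ⟨|K| * |L|, fun i => ?_⟩
  rw [abs_mul]
  exact mul_le_mul ((hK i).trans (le_abs_self _)) ((hL i).trans (le_abs_self _)) (abs_nonneg _)
    (abs_nonneg _)

theorem UB.integral (hf : UB s f) : RB (fun i => I (f i)) := by
  obtain ⟨K, hK⟩ := hf
  exact ⟨K * (4 * Real.pi), fun i => abs_I_le (hK i).1⟩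

/-- composition with a smooth function on a neighbourhood of the range -/
theorem UB.comp_of {ψ : ℝ → ℝ} {S : Set ℝ} (hS : IsOpen S) (hψ : ContDiffOn ℝ ∞ ψ S) {c C : ℝ}
    (hc : Icc c C ⊆ S) (h : ∀ i p, c ≤ f i p ∧ f i p ≤ C) (hf : UB s f) :
    UB s (fun i => cmp ψ (f i)) := by
  obtain ⟨φ, hφ, hφψ⟩ := exists_nice_eq hS hψ hc
  refine (hf.comp hφ).congr fun i => ?_
  apply ssext
  intro p
  rw [hφ.cmp_apply, hφψ _ (h i p), cmp_apply hψ (f i) (fun q => hc (h i q))]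

end Families

/-! ### Pointwise gradient bounds -/

/-- a family bounded in sup norm with gradient controlled by `w` -/
def GB {ι : Type*} (w : ι → Sph → ℝ) (f : ι → SS) : Prop :=
  ∃ K, 0 ≤ K ∧ ∀ i p, |f i p| ≤ K ∧ gp (f i) p ≤ K * (1 + w i p)

section Gradients

variable {ι : Type*} {w : ι → Sph → ℝ} {f g : ι → SS} {a : ι → ℝ}

theorem gp_mul_le (f g : SS) (p : Sph) {K L : ℝ} (hf : |f p| ≤ K) (hg : |g p| ≤ L) :
    gp (f * g) p ≤ 2 * (L ^ 2 * gp f p + K ^ 2 * gp g p) := by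
  unfold gp
  rw [Finset.mul_sum, Finset.mul_sum, ← Finset.sum_add_distrib, Finset.mul_sum]
  apply Finset.sum_le_sum
  intro i _
  rw [X_mul, ss_add, ss_mul, ss_mul]
  have h1 : (X i f p * g p) ^ 2 ≤ L ^ 2 * (X i f p) ^ 2 := by
    rw [mul_pow, mul_comm]
    apply mul_le_mul_of_nonneg_right _ (sq_nonneg _)
    rw [← sq_abs]
    exact pow_le_pow_left₀ (abs_nonneg _) hg 2
  have h2 : (f p * X i g p) ^ 2 ≤ K ^ 2 * (X i g p) ^ 2 := by
    rw [mul_pow]
    apply mul_le_mul_of_nonneg_right _ (sq_nonneg _)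
    rw [← sq_abs]
    exact pow_le_pow_left₀ (abs_nonneg _) hf 2
  nlinarith [sq_nonneg (X i f p * g p - f p * X i g p)]

theorem gp_smul (c : ℝ) (f : SS) (p : Sph) : gp (c • f) p = c ^ 2 * gp f p := by
  unfold gp
  rw [Finset.mul_sum]
  refine Finset.sum_congr rfl fun i _ => ?_
  rw [X_smul, ss_smul]
  ring

theorem gp_add_le (f g : SS) (p : Sph) : gp (f + g) p ≤ 2 * (gp f p + gp g p) := by
  unfold gp
  rw [← Finset.sum_add_distrib, Finset.mul_sum]
  apply Finset.sum_le_sum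
  intro i _
  rw [map_add, ss_add]
  nlinarith [sq_nonneg (X i f p - X i g p)]

theorem gp_cmp_le {φ : ℝ → ℝ} (hφ : Nice φ) {K : ℝ} (hK : ∀ y, |deriv φ y| ≤ K) (f : SS) (p : Sph) :
    gp (cmp φ f) p ≤ K ^ 2 * gp f p := by
  unfold gp
  rw [Finset.mul_sum]
  apply Finset.sum_le_sum
  intro i _
  rw [hφ.X_cmp, ss_mul, hφ.deriv.cmp_apply, mul_pow]
  apply mul_le_mul_of_nonneg_right _ (sq_nonneg _)
  rw [← sq_abs]
  exact pow_le_pow_left₀ (abs_nonneg _) (hK _) 2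

theorem GB.mul (hw : ∀ i p, 0 ≤ w i p) (hf : GB w f) (hg : GB w g) :
    GB w (fun i => f i * g i) := by
  obtain ⟨K, hK0, hK⟩ := hf
  obtain ⟨L, hL0, hL⟩ := hg
  refine ⟨K * L + 2 * (L ^ 2 * K + K ^ 2 * L), by positivity, fun i p => ⟨?_, ?_⟩⟩
  · rw [ss_mul, abs_mul]
    have := mul_le_mul (hK i p).1 (hL i p).1 (abs_nonneg _) hK0
    have h2 : 0 ≤ 2 * (L ^ 2 * K + K ^ 2 * L) := by positivity
    linarith
  · have h1 := gp_mul_le (f i) (g i) p (hK i p).1 (hL i p).1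
    have h2 := mul_le_mul_of_nonneg_left (hK i p).2 (sq_nonneg L)
    have h3 := mul_le_mul_of_nonneg_left (hL i p).2 (sq_nonneg K)
    have h4 := hw i p
    have h5 : 0 ≤ K * L * (1 + w i p) := by positivity
    nlinarith

theorem GB.smul {a : ι → ℝ} (hw : ∀ i p, 0 ≤ w i p) (ha : RB a) (hf : GB w f) :
    GB w (fun i => a i • f i) := by
  obtain ⟨K, hK0, hK⟩ := hf
  obtain ⟨A, hA⟩ := ha
  refine ⟨|A| * K + A ^ 2 * K, by positivity, fun i p => ⟨?_, ?_⟩⟩
  · rw [ss_smul, abs_mul]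
    have := mul_le_mul ((hA i).trans (le_abs_self A)) (hK i p).1 (abs_nonneg _) (abs_nonneg _)
    have h2 : 0 ≤ A ^ 2 * K := by positivity
    linarith
  · rw [gp_smul]
    have h1 : a i ^ 2 ≤ A ^ 2 := by
      rw [← sq_abs (a i)]
      exact pow_le_pow_left₀ (abs_nonneg _) (hA i) 2
    have h2 := mul_le_mul h1 (hK i p).2 (gp_nonneg _ _) (sq_nonneg A)
    have h4 := hw i p
    have h5 : 0 ≤ |A| * K * (1 + w i p) := by positivity
    nlinarith

theorem GB.comp {φ : ℝ → ℝ} (hφ : Nice φ) (hw : ∀ i p, 0 ≤ w i p) (hf : GB w f) :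
    GB w (fun i => cmp φ (f i)) := by
  obtain ⟨K, hK0, hK⟩ := hf
  obtain ⟨L, hL⟩ := hφ.bdd
  obtain ⟨N, hN⟩ := hφ.deriv.bdd
  have hL0 : 0 ≤ L := (abs_nonneg _).trans (hL 0)
  refine ⟨L + N ^ 2 * K, by positivity, fun i p => ⟨?_, ?_⟩⟩
  · rw [hφ.cmp_apply]
    have := hL (f i p)
    have h2 : 0 ≤ N ^ 2 * K := by positivity
    linarith
  · have h1 := gp_cmp_le hφ hN (f i) p
    have h2 := mul_le_mul_of_nonneg_left (hK i p).2 (sq_nonneg N)
    have h4 := hw i p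
    have h5 : 0 ≤ L * (1 + w i p) := by positivity
    nlinarith

theorem GB.comp_of {ψ : ℝ → ℝ} {S : Set ℝ} (hS : IsOpen S) (hψ : ContDiffOn ℝ ∞ ψ S) {c C : ℝ}
    (hc : Icc c C ⊆ S) (h : ∀ i p, c ≤ f i p ∧ f i p ≤ C) (hw : ∀ i p, 0 ≤ w i p) (hf : GB w f) :
    GB w (fun i => cmp ψ (f i)) := by
  obtain ⟨φ, hφ, hφψ⟩ := exists_nice_eq hS hψ hc
  have h1 := hf.comp hφ hw
  have e : (fun i => cmp ψ (f i)) = fun i => cmp φ (f i) := by
    funext i
    apply ssext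
    intro p
    rw [hφ.cmp_apply, hφψ _ (h i p), cmp_apply hψ (f i) (fun q => hc (h i q))]
  rw [e]
  exact h1

end Gradients

/-! ### Sup bound of the gradient -/

theorem gp_le (f : SS) (p : Sph) : gp f p ≤ 48 * (M 1 f + √(M 1 f) * √(M 3 f)) := by
  have key : ∀ i, (X i f p) ^ 2 ≤ 16 * (M 1 f + √(M 1 f) * √(M 3 f)) := by
    intro i
    have h1 := agmon (X i f) p
    rw [sq_abs] at h1
    have h2 : M 0 (X i f) ≤ M 1 f := by
      rw [M_succ 0 f]
      exact Finset.single_le_sum (f := fun i => M 0 (X i f)) (fun i _ => M_nonneg _ _)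
        (Finset.mem_univ i)
    have h3 : M 2 (X i f) ≤ M 3 f := by
      rw [M_succ 2 f]
      exact Finset.single_le_sum (f := fun i => M 2 (X i f)) (fun i _ => M_nonneg _ _)
        (Finset.mem_univ i)
    have h4 := Real.sqrt_le_sqrt h2
    have h5 := Real.sqrt_le_sqrt h3
    have h6 := Real.sqrt_nonneg (M 0 (X i f))
    have h7 := Real.sqrt_nonneg (M 2 (X i f))
    have h8 := Real.mul_self_sqrt (M_nonneg 1 f)
    have h9 : √(M 0 (X i f)) * (√(M 0 (X i f)) + √(M 2 (X i f))) ≤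
        √(M 1 f) * (√(M 1 f) + √(M 3 f)) := by
      apply mul_le_mul h4 (by linarith) (by positivity) (Real.sqrt_nonneg _)
    nlinarith
  unfold gp
  rw [Fin.sum_univ_three]
  have := key 0
  have := key 1
  have := key 2
  linarith

/-! ### One step of the energy method -/

theorem step_ineq (s : ℕ) (hs : 1 ≤ s) (c₀ K q : ℝ) (hc : 0 < c₀) : ∃ C, 0 ≤ C ∧ ∀ F G B : SS,
    (∀ p, c₀ ≤ G p) → NN s F ≤ K → NN s G ≤ K → NN s B ≤ K → ∀ r : ℝ, 0 ≤ r →
    (∀ p, gp G p ≤ q * (1 + √(M 3 F) + r)) →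
    2 * Mb (s + 1) F (G * Lap F + B) ≤ -(c₀ / 2) * M (s + 2) F +
      C * ((1 + r) * (1 + M (s + 1) F) + (1 + M (s + 1) F) ^ 2) := by
  obtain ⟨C, hC⟩ := energy s hs c₀ K hc
  set A := |C| with hA
  have hA0 : 0 ≤ A := abs_nonneg C
  set q' := |q| with hq'
  have hq0 : 0 ≤ q' := abs_nonneg q
  refine ⟨2 * A * (1 + q') + 2 * A * q' * (1 + |K|) + 2 * A ^ 2 * q' ^ 2 / c₀, by positivity, ?_⟩
  intro F G B hG hF hGK hBK r hr hQ
  have m3 := Real.sqrt_nonneg (M 3 F)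
  set y := M (s + 1) F with hy
  have hy0 : 0 ≤ y := M_nonneg _ _
  set z := M (s + 2) F with hz
  have hz0 : 0 ≤ z := M_nonneg _ _
  set Q := q' * (1 + √(M 3 F) + r) with hQdef
  have hQ0 : 0 ≤ Q := by positivity
  have h1 := hC F G B hG hF hGK hBK Q (fun p => by
    refine (hQ p).trans ?_
    exact mul_le_mul_of_nonneg_right (le_abs_self q) (by positivity))
  have h2 : C * (1 + Q) * (1 + y) ≤ A * (1 + Q) * (1 + y) := by
    have : C * (1 + Q) ≤ A * (1 + Q) := mul_le_mul_of_nonneg_right (le_abs_self C) (by linarith)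
    exact mul_le_mul_of_nonneg_right this (by linarith)
  rw [Mb_succ']
  have h3 : 2 * -Mb s (Lap F) (G * Lap F + B) ≤ -c₀ * z + 2 * A * ((1 + Q) * (1 + y)) := by
    nlinarith
  refine h3.trans ?_
  have h4 : (1 + Q) * (1 + y) ≤ (1 + q') * ((1 + r) * (1 + y)) + q' * √(M 3 F) * (1 + y) := by
    have : (1 + Q) * (1 + y) = (1 + q' + q' * r) * (1 + y) + q' * √(M 3 F) * (1 + y) := by
      rw [hQdef]; ring
    rw [this]
    have h5 : (1 + q' + q' * r) * (1 + y) ≤ (1 + q') * (1 + r) * (1 + y) := by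
      apply mul_le_mul_of_nonneg_right _ (by linarith)
      nlinarith
    nlinarith
  have h5 : 2 * A * (q' * √(M 3 F) * (1 + y)) ≤ (c₀ / 2) * z +
      (2 * A * q' * (1 + |K|) + 2 * A ^ 2 * q' ^ 2 / c₀) * (1 + y) ^ 2 := by
    have hX : 0 ≤ 2 * A ^ 2 * q' ^ 2 / c₀ * (1 + y) ^ 2 := by positivity
    have hY : 0 ≤ 2 * A * q' * (1 + |K|) * (1 + y) ^ 2 := by positivity
    have hZ : 0 ≤ (c₀ / 2) * z := by positivity
    rcases Nat.lt_or_ge s 2 with h | h
    · have hs1 : s = 1 := by omega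
      have e3 : M 3 F = z := by rw [hz, hs1]
      rw [e3]
      have hzz := Real.sq_sqrt hz0
      set x := √z
      have h6 : 2 * A * (q' * x * (1 + y)) ≤ (c₀ / 2) * x ^ 2 + 2 * A ^ 2 * q' ^ 2 / c₀ * (1 + y) ^ 2 := by
        have h7 : 0 ≤ (c₀ * x - 2 * A * q' * (1 + y)) ^ 2 / (2 * c₀) := by positivity
        have h8 : (c₀ * x - 2 * A * q' * (1 + y)) ^ 2 / (2 * c₀) =
            (c₀ / 2) * x ^ 2 + 2 * A ^ 2 * q' ^ 2 / c₀ * (1 + y) ^ 2 -
              2 * A * (q' * x * (1 + y)) := by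
          field_simp
          ring
        linarith
      rw [hzz] at h6
      linarith
    · have h6 : √(M 3 F) ≤ (1 + |K|) * (1 + y) := by
        rcases Nat.lt_or_ge s 3 with h' | h'
        · have hs2 : s = 2 := by omega
          have e3 : M 3 F = y := by rw [hy, hs2]
          rw [e3]
          have h7 : √y ≤ 1 + y := by
            rw [Real.sqrt_le_left (by linarith)]
            nlinarith
          have h8 := abs_nonneg K
          nlinarith
        · have h7 : M 3 F ≤ |K| := ((M_le_NN h' F).trans hF).trans (le_abs_self K)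
          have h8 : √(M 3 F) ≤ 1 + |K| := by
            rw [Real.sqrt_le_left (by positivity)]
            nlinarith [abs_nonneg K]
          have h9 := abs_nonneg K
          nlinarith
      have h7 : 2 * A * (q' * √(M 3 F) * (1 + y)) ≤ 2 * A * (q' * ((1 + |K|) * (1 + y)) * (1 + y)) := by
        gcongr
      have h8 : 2 * A * (q' * ((1 + |K|) * (1 + y)) * (1 + y)) =
          2 * A * q' * (1 + |K|) * (1 + y) ^ 2 := by ring
      rw [h8] at h7
      linarith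
  have h6 := mul_le_mul_of_nonneg_left h4 (show 0 ≤ 2 * A by positivity)
  have h7 : 0 ≤ (2 * A * q' * (1 + |K|) + 2 * A ^ 2 * q' ^ 2 / c₀) * ((1 + r) * (1 + y)) := by
    positivity
  have h8 : 0 ≤ 2 * A * (1 + q') * (1 + y) ^ 2 := by positivity
  nlinarith

end Pool.Agent.helper68.S2
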