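import Mathlib
import Pool.Agent.helper9.S2.Reg
import Pool.Agent.helper68.S2.Curv

/-!
# Regularity estimates, uniform in time, for the curvature quotient flow (R2)
-/

set_option autoImplicit false

open MeasureTheory Metric Set Filter
open scoped ContDiff Topology

namespace Pool.Agent.helper68.S2

/-- a point on a flow line starting at `u₀` -/
structure FlowPt (u₀ : SS) where
  T : ℝ
  u : ℝ → SS
  F : ℝ → SS
  h : IsFlow (Icc 0 T) u F
  h0 : u 0 = u₀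
  t : ℝ
  ht : t ∈ Icc (0 : ℝ) T

namespace FlowPt

variable {u₀ : SS}

/-- `u` at the point -/
noncomputable def U (i : FlowPt u₀) : SS := i.u i.t
/-- `F` at the point -/
noncomputable def V' (i : FlowPt u₀) : SS := i.F i.t

/-- the coefficient -/
noncomputable def G (i : FlowPt u₀) : SS := i.V' * Inv (Pc i.U)
/-- lower order term -/
noncomputable def B (i : FlowPt u₀) : SS :=
  (2 : ℝ) • (i.V' * (i.V' - algebraMap ℝ SS (av i.U i.V')))
/-- the time derivative of `F` -/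
noncomputable def W (i : FlowPt u₀) : SS := i.G * Lap i.V' + i.B

/-- another point on the same line -/
def at' (i : FlowPt u₀) (s : ℝ) (hs : s ∈ Icc (0 : ℝ) i.T) : FlowPt u₀ :=
  ⟨i.T, i.u, i.F, i.h, i.h0, s, hs⟩

end FlowPt

theorem lam_bounds {u : SS} {C : ℝ} (h : ∀ p, |u p| ≤ C) :
    Real.exp (-2 * C) ≤ lam u ∧ lam u ≤ Real.exp (2 * C) := by
  have hpi := Real.pi_pos
  have h1 : ar u ≤ Real.exp (2 * C) * (4 * Real.pi) := by
    have := I_mono (f := Ex 2 u) (g := algebraMap ℝ SS (Real.exp (2 * C))) fun q => by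
      rw [ss_algebraMap, Ex_apply]
      apply Real.exp_le_exp.mpr
      have h2 := (abs_le.mp (h q)).2
      linarith
    rwa [I_const] at this
  have h2 : Real.exp (-2 * C) * (4 * Real.pi) ≤ ar u := by
    have := I_mono (f := algebraMap ℝ SS (Real.exp (-2 * C))) (g := Ex 2 u) fun q => by
      rw [ss_algebraMap, Ex_apply]
      apply Real.exp_le_exp.mpr
      have h2 := (abs_le.mp (h q)).1
      linarith
    rwa [I_const] at this
  have ha := ar_pos u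
  unfold lam
  have hee : Real.exp (-2 * C) * Real.exp (2 * C) = 1 := by
    rw [← Real.exp_add]
    simp
  constructor
  · rw [le_div_iff₀ ha]
    calc Real.exp (-2 * C) * ar u ≤ Real.exp (-2 * C) * (Real.exp (2 * C) * (4 * Real.pi)) :=
          mul_le_mul_of_nonneg_left h1 (Real.exp_pos _).le
      _ = (Real.exp (-2 * C) * Real.exp (2 * C)) * (4 * Real.pi) := by ring
      _ = 4 * Real.pi := by rw [hee, one_mul]
  · rw [div_le_iff₀ ha]
    calc 4 * Real.pi = (Real.exp (-2 * C) * Real.exp (2 * C)) * (4 * Real.pi) := by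
          rw [hee, one_mul]
      _ = Real.exp (2 * C) * (Real.exp (-2 * C) * (4 * Real.pi)) := by ring
      _ ≤ Real.exp (2 * C) * ar u := mul_le_mul_of_nonneg_left h2 (Real.exp_pos _).le

section Static

variable {u₀ : SS}

/-- pointwise bounds -/
theorem FlowPt.bounds (u₀ : SS) : ∃ c C : ℝ, 0 < c ∧ 0 < C ∧ ∀ (i : FlowPt u₀) (p : Sph),
    |i.U p| ≤ C ∧ gp i.U p ≤ C ∧ c ≤ i.V' p ∧ i.V' p ≤ C ∧ c ≤ Pc i.U p ∧ Pc i.U p ≤ C := by
  obtain ⟨c, C, hc, h⟩ := bounds_all u₀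
  refine ⟨c, |C| + 1, hc, by positivity, fun i p => ?_⟩
  obtain ⟨h1, h2, h3, h4, h5, h6⟩ := h i.T i.u i.F i.h i.h0 i.t i.ht p
  have hC : C ≤ |C| + 1 := by have := le_abs_self C; linarith
  refine ⟨h1.trans hC, ?_, h3, h4.trans hC, h5, h6.trans hC⟩
  refine le_trans (le_of_eq ?_) (h2.trans hC)
  rw [gr_apply]
  unfold gp
  rw [Fin.sum_univ_three]
  rfl

theorem FlowPt.rel (i : FlowPt u₀) : i.V' * Pc i.U = lam i.U • Ex 2 i.U := i.h.eq i.t i.ht

theorem FlowPt.Ppos (i : FlowPt u₀) (p : Sph) : 0 < Pc i.U p := i.h.Ppos i.ht p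
theorem FlowPt.Vpos (i : FlowPt u₀) (p : Sph) : 0 < i.V' p := i.h.Fpos i.t i.ht p

theorem FlowPt.G_eq (i : FlowPt u₀) :
    i.G = (lam i.U)⁻¹ • (i.V' * i.V' * Ex (-2) i.U) := by
  apply ssext
  intro p
  unfold FlowPt.G
  rw [ss_mul, ss_smul, ss_mul, ss_mul, Inv_apply i.Ppos, Ex_apply]
  have h1 : (i.V' * Pc i.U) p = (lam i.U • Ex 2 i.U) p := by rw [i.rel]
  rw [ss_mul, ss_smul, Ex_apply] at h1
  have hP := (i.Ppos p).ne'
  have hl := (lam_pos i.U).ne'
  have he : Real.exp (-2 * i.U p) * Real.exp (2 * i.U p) = 1 := by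
    rw [← Real.exp_add]; simp
  have h2 : i.V' p * Real.exp (-2 * i.U p) * Pc i.U p = lam i.U := by
    calc i.V' p * Real.exp (-2 * i.U p) * Pc i.U p
        = (i.V' p * Pc i.U p) * Real.exp (-2 * i.U p) := by ring
      _ = lam i.U * (Real.exp (-2 * i.U p) * Real.exp (2 * i.U p)) := by rw [h1]; ring
      _ = _ := by rw [he, mul_one]
  generalize Real.exp (-2 * i.U p) = e at h2
  rw [mul_comm (lam i.U)⁻¹, ← div_eq_mul_inv, ← div_eq_mul_inv, div_eq_div_iff hP hl]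
  linear_combination (-i.V' p) * h2

theorem FlowPt.Lap_U (i : FlowPt u₀) :
    Lap i.U = (1 : SS) - lam i.U • (Ex 2 i.U * Inv i.V') := by
  have h1 : lam i.U • (Ex 2 i.U * Inv i.V') = Pc i.U := by
    rw [← smul_mul_assoc, ← i.rel]
    have := mul_Inv i.Vpos
    calc i.V' * Pc i.U * Inv i.V' = Pc i.U * (i.V' * Inv i.V') := by ring
      _ = _ := by rw [this, mul_one]
  rw [h1]
  unfold Pc
  ring

/-- the factor `λ` and its inverse are bounded -/
theorem FlowPt.RB_lam (u₀ : SS) : RB (fun i : FlowPt u₀ => lam i.U) ∧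
    RB (fun i : FlowPt u₀ => (lam i.U)⁻¹) := by
  obtain ⟨c, C, hc, hC, h⟩ := FlowPt.bounds u₀
  refine ⟨⟨Real.exp (2 * C), fun i => ?_⟩, ⟨Real.exp (2 * C), fun i => ?_⟩⟩
  · have h1 := lam_bounds fun p => (h i p).1
    rw [abs_of_pos (lam_pos _)]
    exact h1.2
  · have h1 := lam_bounds fun p => (h i p).1
    rw [abs_of_pos (inv_pos.2 (lam_pos _))]
    rw [inv_le_comm₀ (lam_pos _) (Real.exp_pos _), ← Real.exp_neg]
    refine le_trans (le_of_eq ?_) h1.1
    congr 1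
    ring

theorem FlowPt.av_bound (u₀ : SS) : RB (fun i : FlowPt u₀ => av i.U i.V') := by
  obtain ⟨c, C, hc, hC, h⟩ := FlowPt.bounds u₀
  refine ⟨C, fun i => ?_⟩
  unfold av
  have ha := ar_pos i.U
  rw [abs_div, abs_of_pos ha, div_le_iff₀ ha]
  have h1 : 0 ≤ I (i.V' * Ex 2 i.U) := I_nonneg fun p => by
    rw [ss_mul]
    exact (mul_pos (i.Vpos p) (Ex_pos _ _ _)).le
  rw [abs_of_nonneg h1]
  have h2 : I (i.V' * Ex 2 i.U) ≤ I (C • Ex 2 i.U) := by
    apply I_mono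
    intro p
    rw [ss_mul, ss_smul]
    exact mul_le_mul_of_nonneg_right (h i p).2.2.2.1 (Ex_pos _ _ _).le
  rw [map_smul, smul_eq_mul] at h2
  exact h2

theorem algebraMap_eq_smul (c : ℝ) : algebraMap ℝ SS c = c • (1 : SS) :=
  Algebra.algebraMap_eq_smul_one c

theorem FlowPt.UB_GB {s : ℕ} (hs : 1 ≤ s) (hu : UB s (fun i : FlowPt u₀ => i.U))
    (hF : UB s (fun i : FlowPt u₀ => i.V')) :
    UB s (fun i : FlowPt u₀ => i.G) ∧ UB s (fun i : FlowPt u₀ => i.B) := by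
  obtain ⟨c, C, hc, hC, h⟩ := FlowPt.bounds u₀
  have hE : UB s (fun i : FlowPt u₀ => Ex (-2) i.U) :=
    UB.comp_of (c := -C) (C := C) isOpen_univ (contDiffOn_exp (-2) univ) (subset_univ _)
      (fun i p => abs_le.mp (h i p).1) hu
  constructor
  · exact (UB.smul (FlowPt.RB_lam u₀).2 ((hF.mul hs hF).mul hs hE)).congr fun i => i.G_eq
  · refine (UB.smul (RB.const (ι := FlowPt u₀) 2) (hF.mul hs (hF.sub
      (UB.smul (FlowPt.av_bound u₀) (UB.const (1 : SS)))))).congr fun i => ?_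
    unfold FlowPt.B
    rw [algebraMap_eq_smul]

theorem FlowPt.UB_Lap {s : ℕ} (hs : 1 ≤ s) (hu : UB s (fun i : FlowPt u₀ => i.U))
    (hF : UB s (fun i : FlowPt u₀ => i.V')) : UB s (fun i : FlowPt u₀ => Lap i.U) := by
  obtain ⟨c, C, hc, hC, h⟩ := FlowPt.bounds u₀
  have hE : UB s (fun i : FlowPt u₀ => Ex 2 i.U) :=
    UB.comp_of (c := -C) (C := C) isOpen_univ (contDiffOn_exp 2 univ) (subset_univ _)
      (fun i p => abs_le.mp (h i p).1) hu
  have hI : UB s (fun i : FlowPt u₀ => Inv i.V') :=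
    UB.comp_of (c := c) (C := C) isOpen_Ioi contDiffOn_inv_Ioi
      (fun y hy => lt_of_lt_of_le hc hy.1) (fun i p => ⟨(h i p).2.2.1, (h i p).2.2.2.1⟩) hF
  exact ((UB.const (1 : SS)).sub (UB.smul (FlowPt.RB_lam u₀).1 (hE.mul hs hI))).congr
    fun i => i.Lap_U

theorem FlowPt.UB_succ {s : ℕ} (hs : 1 ≤ s) (hu : UB s (fun i : FlowPt u₀ => i.U))
    (hF : UB s (fun i : FlowPt u₀ => i.V')) : UB (s + 1) (fun i : FlowPt u₀ => i.U) := by
  obtain ⟨K, hK⟩ := hu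
  obtain ⟨L, hL⟩ := FlowPt.UB_Lap hs ⟨K, hK⟩ hF
  refine UB.of_le (K₁ := K) (K₂ := K + L) (fun i p => (hK i).1 p) fun i => ?_
  rw [NN_succ_right]
  obtain ⟨t, rfl⟩ := Nat.exists_eq_add_of_le' hs
  have h1 : M (t + 1 + 1) i.U = M t (Lap i.U) := (M_Lap t _).symm
  rw [h1]
  have h2 := (M_le_NN (show t ≤ t + 1 by omega) (Lap i.U)).trans (hL i).2
  linarith [(hK i).2]

/-- lower bound of the coefficient -/
theorem FlowPt.G_lower (u₀ : SS) : ∃ c₀, 0 < c₀ ∧ ∀ (i : FlowPt u₀) (p : Sph), c₀ ≤ i.G p := by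
  obtain ⟨c, C, hc, hC, h⟩ := FlowPt.bounds u₀
  refine ⟨c / C, by positivity, fun i p => ?_⟩
  unfold FlowPt.G
  rw [ss_mul, Inv_apply i.Ppos]
  have h1 := (h i p).2.2.1
  have h2 := (h i p).2.2.2.2.2
  rw [div_eq_mul_inv]
  apply mul_le_mul h1 _ (by positivity) (hc.le.trans h1)
  exact inv_anti₀ (i.Ppos p) h2

/-- gradient bound of the coefficient -/
theorem FlowPt.G_grad (u₀ : SS) : ∃ K, 0 ≤ K ∧ ∀ (i : FlowPt u₀) (p : Sph),
    gp i.G p ≤ K * (1 + gp i.V' p) := by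
  obtain ⟨c, C, hc, hC, h⟩ := FlowPt.bounds u₀
  have hw : ∀ (i : FlowPt u₀) (p : Sph), 0 ≤ gp i.V' p := fun i p => gp_nonneg _ _
  have hu : GB (fun (i : FlowPt u₀) p => gp i.V' p) (fun i : FlowPt u₀ => i.U) := by
    refine ⟨C, hC.le, fun i p => ⟨(h i p).1, ?_⟩⟩
    have h1 := (h i p).2.1
    have h2 : 0 ≤ C * gp i.V' p := mul_nonneg hC.le (hw i p)
    linarith
  have hF : GB (fun (i : FlowPt u₀) p => gp i.V' p) (fun i : FlowPt u₀ => i.V') := by
    refine ⟨C + 1, by positivity, fun i p => ⟨?_, ?_⟩⟩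
    · rw [abs_of_pos (i.Vpos p)]
      have := (h i p).2.2.2.1
      linarith
    · have h2 : 0 ≤ C * gp i.V' p := mul_nonneg hC.le (hw i p)
      linarith
  have hE : GB (fun (i : FlowPt u₀) p => gp i.V' p) (fun i : FlowPt u₀ => Ex (-2) i.U) :=
    GB.comp_of (c := -C) (C := C) isOpen_univ (contDiffOn_exp (-2) univ) (subset_univ _)
      (fun i p => abs_le.mp (h i p).1) hw hu
  obtain ⟨K, hK0, hK⟩ := GB.smul hw (FlowPt.RB_lam u₀).2 (GB.mul hw (GB.mul hw hF hF) hE)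
  refine ⟨K, hK0, fun i p => ?_⟩
  rw [i.G_eq]
  exact (hK i p).2

end Static

/-! ### The time derivatives -/

section Dynamics

variable {T : ℝ} {u F : ℝ → SS}

theorem IsFlow.cav (h : IsFlow (Icc 0 T) u F) : ContinuousOn (fun t => av (u t) (F t)) (Icc 0 T) := by
  unfold av ar
  apply ContinuousOn.div
  · exact I_cont ((h.cF.mul (h.cu.Ex 2)) 0)
  · exact I_cont ((h.cu.Ex 2) 0)
  · intro t _
    exact (ar_pos (u t)).ne'

theorem IsFlow.cW (h : IsFlow (Icc 0 T) u F) : CC (Icc 0 T) (fun t => F t * Inv (Pc (u t)) * Lap (F t)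
      + (2 : ℝ) • (F t * (F t - algebraMap ℝ SS (av (u t) (F t))))) := by
  simp only [algebraMap_eq_smul]
  exact ((h.cF.mul (h.cP.Inv fun t ht => h.Ppos ht)).mul h.cF.Lap).add
    (CC.smul continuousOn_const (h.cF.mul (h.cF.sub (CC.smul h.cav (CC.const 1)))))

theorem IsFlow.dMF (h : IsFlow (Icc 0 T) u F) (s : ℕ) {t : ℝ} (ht : t ∈ Icc (0 : ℝ) T) :
    HasDerivWithinAt (fun t => M s (F t)) (2 * Mb s (F t) (F t * Inv (Pc (u t)) * Lap (F t)
      + (2 : ℝ) • (F t * (F t - algebraMap ℝ SS (av (u t) (F t)))))) (Icc 0 T) t :=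
  dM (convex_Icc 0 T) s h.cF h.cW (h.dF (convex_Icc 0 T)) ht

end Dynamics

/-! ### The induction -/

/-- the induction statement -/
def Reg (u₀ : SS) (s : ℕ) : Prop :=
  UB s (fun i : FlowPt u₀ => i.U) ∧ UB s (fun i : FlowPt u₀ => i.V') ∧
  ∃ c₁ C₁ : ℝ, 0 < c₁ ∧ ∀ i : FlowPt u₀,
    2 * Mb s i.V' i.W ≤ -c₁ * M (s + 1) i.V' + C₁

theorem gap_M (f : SS) : 2 * M 1 f ≤ M 2 f := by
  rw [M_succ 1 f, M_succ 0 f, Finset.mul_sum]
  apply Finset.sum_le_sum
  intro i _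
  have h := gap2 (f := X i f) (I_X i f)
  exact h

theorem F_zero {u₀ : SS} (i : FlowPt u₀) : i.F 0 = Fq u₀ := by
  have h0 : (0 : ℝ) ∈ Icc (0 : ℝ) i.T := ⟨le_rfl, i.ht.1.trans i.ht.2⟩
  rw [i.h.F_eq h0, i.h0]
  rfl

theorem reg_one (u₀ : SS) : Reg u₀ 1 := by
  obtain ⟨c, C, hc, hC, h⟩ := FlowPt.bounds u₀
  obtain ⟨c₀, hc₀, hG⟩ := FlowPt.G_lower u₀
  obtain ⟨A, hA⟩ := FlowPt.av_bound u₀
  have hpi := Real.pi_pos
  -- the bound of `B`
  set K : ℝ := (2 * (C * (C + |A|))) ^ 2 * (4 * Real.pi) with hK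
  have hK0 : 0 ≤ K := by positivity
  have hB : ∀ i : FlowPt u₀, M 0 i.B ≤ K := by
    intro i
    apply M_zero_le
    intro p
    unfold FlowPt.B
    rw [ss_smul, ss_mul, ss_sub, ss_algebraMap, abs_mul, abs_two, abs_mul]
    have h1 : |i.V' p| ≤ C := by
      rw [abs_of_pos (i.Vpos p)]
      exact (h i p).2.2.2.1
    have h2 : |i.V' p - av i.U i.V'| ≤ C + |A| := by
      have h3 := abs_sub (i.V' p) (av i.U i.V')
      have h4 := (hA i).trans (le_abs_self A)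
      linarith
    have h3 := mul_le_mul h1 h2 (abs_nonneg _) hC.le
    linarith
  have hD : ∀ i : FlowPt u₀, 2 * Mb 1 i.V' i.W ≤ -c₀ * M 2 i.V' + K / c₀ := by
    intro i
    rw [Mb_succ', Mb_zero]
    unfold FlowPt.W
    rw [mul_add, map_add]
    have h1 : c₀ * M 2 i.V' ≤ I (Lap i.V' * (i.G * Lap i.V')) := by
      rw [M_two, ← smul_eq_mul, ← map_smul]
      apply I_mono
      intro p
      rw [ss_smul, ss_mul, ss_mul, ss_mul]
      have := mul_le_mul_of_nonneg_right (hG i p) (mul_self_nonneg (Lap i.V' p))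
      linarith
    have h2 := (abs_le.mp (two_Mb_le 0 (Lap i.V') i.B (c := c₀ / 2) (by positivity))).1
    rw [Mb_zero, M_Lap 0 i.V', Nat.zero_add] at h2
    have h3 : 1 / (4 * (c₀ / 2)) * M 0 i.B ≤ K / (2 * c₀) := by
      have e : 1 / (4 * (c₀ / 2)) = 1 / (2 * c₀) := by
        congr 1
        ring
      rw [e, div_mul_eq_mul_div, one_mul]
      gcongr
      exact hB i
    have h4 : K / c₀ = 2 * (K / (2 * c₀)) := by
      field_simp
    rw [h4]
    linarith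
  -- `M 1 F`
  have hM1 : ∃ L, ∀ i : FlowPt u₀, M 1 i.V' ≤ L := by
    refine ⟨max (M 1 (Fq u₀)) (K / (2 * c₀ ^ 2)), fun i => ?_⟩
    have h1 := ode_max (T := i.T) (K := K / (2 * c₀ ^ 2)) (f := fun t => M 1 (i.F t))
      (fun t ht => i.h.dMF 1 ht) (fun t ht hlt => by
        have h2 := hD (i.at' t ht)
        have h3 := gap_M (i.F t)
        change 2 * Mb 1 (i.F t) (i.F t * Inv (Pc (i.u t)) * Lap (i.F t)
          + (2 : ℝ) • (i.F t * (i.F t - algebraMap ℝ SS (av (i.u t) (i.F t))))) ≤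
            -c₀ * M 2 (i.F t) + K / c₀ at h2
        refine h2.trans ?_
        have h4 : K / c₀ = 2 * c₀ * (K / (2 * c₀ ^ 2)) := by
          field_simp
        have h5 : 2 * c₀ * (K / (2 * c₀ ^ 2)) ≤ 2 * c₀ * M 1 (i.F t) :=
          mul_le_mul_of_nonneg_left hlt.le (by positivity)
        have h6 : c₀ * (2 * M 1 (i.F t)) ≤ c₀ * M 2 (i.F t) := mul_le_mul_of_nonneg_left h3 hc₀.le
        linarith) i.t i.ht
    rw [F_zero i] at h1
    exact h1
  obtain ⟨L, hL⟩ := hM1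
  refine ⟨?_, ?_, c₀, K / c₀, hc₀, hD⟩
  · refine UB.of_le (K₁ := C) (K₂ := C ^ 2 * (4 * Real.pi) + C * (4 * Real.pi))
      (fun i p => (h i p).1) fun i => ?_
    rw [NN_one]
    have h1 := M_zero_le fun p => (h i p).1
    have h2 := M_one_le fun p => (h i p).2.1
    linarith
  · have hV : ∀ (i : FlowPt u₀) p, |i.V' p| ≤ C := fun i p => by
      rw [abs_of_pos (i.Vpos p)]
      exact (h i p).2.2.2.1
    refine UB.of_le (K₁ := C) (K₂ := C ^ 2 * (4 * Real.pi) + L) hV fun i => ?_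
    rw [NN_one]
    have h1 := M_zero_le (hV i)
    have h2 := hL i
    linarith

theorem reg_step (u₀ : SS) {s : ℕ} (hs : 1 ≤ s) (hR : Reg u₀ s) : Reg u₀ (s + 1) := by
  obtain ⟨hu, hF, c₁, C₁, hc₁, hD⟩ := hR
  obtain ⟨hGB, hBB⟩ := FlowPt.UB_GB hs hu hF
  obtain ⟨c₀, hc₀, hG⟩ := FlowPt.G_lower u₀
  obtain ⟨q, hq0, hq⟩ := FlowPt.G_grad u₀
  obtain ⟨KF, hKF0, hKF⟩ := hF.nonneg
  obtain ⟨KG, hKG0, hKG⟩ := hGB.nonneg
  obtain ⟨KB, hKB0, hKB⟩ := hBB.nonneg
  set K := KF + KG + KB with hK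
  obtain ⟨C, hC0, hC⟩ := step_ineq s hs c₀ K (q * (1 + 48 * KF + 48 * √KF)) hc₀
  -- the differential inequality at level `s + 1`
  have hE : ∀ i : FlowPt u₀, 2 * Mb (s + 1) i.V' i.W ≤ -(c₀ / 2) * M (s + 2) i.V' +
      2 * C * (1 + M (s + 1) i.V') ^ 2 := by
    intro i
    have hM1 : M 1 i.V' ≤ KF := (M_le_NN hs _).trans (hKF i).2
    have h1 := hC i.V' i.G i.B (hG i) ((hKF i).2.trans (by linarith))
      ((hKG i).2.trans (by linarith)) ((hKB i).2.trans (by linarith)) 0 le_rfl (fun p => by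
        refine (hq i p).trans ?_
        rw [mul_assoc]
        apply mul_le_mul_of_nonneg_left _ hq0
        have h2 := gp_le i.V' p
        have h3 := Real.sqrt_le_sqrt hM1
        have h4 := Real.sqrt_nonneg (M 3 i.V')
        have h5 := Real.sqrt_nonneg KF
        have h6 : √(M 1 i.V') * √(M 3 i.V') ≤ √KF * √(M 3 i.V') :=
          mul_le_mul_of_nonneg_right h3 h4
        have h7 : 0 ≤ KF * √(M 3 i.V') := mul_nonneg hKF0 h4
        nlinarith)
    refine h1.trans ?_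
    have hy := M_nonneg (s + 1) i.V'
    have h2 : (1 + 0) * (1 + M (s + 1) i.V') + (1 + M (s + 1) i.V') ^ 2 ≤
        2 * (1 + M (s + 1) i.V') ^ 2 := by nlinarith
    have h3 := mul_le_mul_of_nonneg_left h2 hC0
    linarith
  -- the bound of `M (s+1) F`
  obtain ⟨L, hL⟩ := lyap c₁ C₁ (2 * C) KF (M (s + 1) (Fq u₀)) hc₁
  have hM : ∀ i : FlowPt u₀, M (s + 1) i.V' ≤ L := by
    intro i
    refine hL i.T (fun t => M s (i.F t)) _ (fun t => M (s + 1) (i.F t)) _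
      (fun t ht => i.h.dMF s ht) (fun t ht => i.h.dMF (s + 1) ht)
      (fun t ht => ⟨M_nonneg _ _, (M_le_NN le_rfl _).trans (hKF (i.at' t ht)).2, M_nonneg _ _⟩)
      (fun t ht => hD (i.at' t ht)) (fun t ht => ?_) (by rw [F_zero i]) i.t i.ht
    have h1 := hE (i.at' t ht)
    have h2 := M_nonneg (s + 2) (i.at' t ht).V'
    have h3 : 0 ≤ (c₀ / 2) * M (s + 2) (i.at' t ht).V' := by positivity
    have h4 : 2 * Mb (s + 1) (i.at' t ht).V' (i.at' t ht).W ≤
      2 * C * (1 + M (s + 1) (i.at' t ht).V') ^ 2 := by linarith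
    exact h4
  refine ⟨FlowPt.UB_succ hs hu hF, ?_, c₀ / 2, 2 * C * (1 + |L|) ^ 2, by positivity, fun i => ?_⟩
  · refine UB.of_le (K₁ := KF) (K₂ := KF + L) (fun i p => (hKF i).1 p) fun i => ?_
    rw [NN_succ_right]
    have := (hKF i).2
    have := hM i
    linarith
  · refine (hE i).trans ?_
    have h1 := hM i
    have h2 := M_nonneg (s + 1) i.V'
    have h3 : (1 + M (s + 1) i.V') ^ 2 ≤ (1 + |L|) ^ 2 := by
      apply pow_le_pow_left₀ (by linarith)
      have := le_abs_self L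
      linarith
    have h4 := mul_le_mul_of_nonneg_left h3 (show 0 ≤ 2 * C by positivity)
    linarith

theorem reg_all (u₀ : SS) (s : ℕ) (hs : 1 ≤ s) : Reg u₀ s := by
  induction s, hs using Nat.le_induction with
  | base => exact reg_one u₀
  | succ s hs ih => exact reg_step u₀ hs ih

/-- **Regularity, uniformly in time.** -/
theorem reg_uniform (u₀ : SS) : ∀ s, ∃ B, ∀ (T : ℝ) (u F : ℝ → SS), IsFlow (Icc 0 T) u F →
    u 0 = u₀ → ∀ t ∈ Icc (0 : ℝ) T, NN s (u t) ≤ B ∧ NN s (F t) ≤ B := by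
  intro s
  obtain ⟨hu, hF, _⟩ := reg_all u₀ (s + 1) (by omega)
  obtain ⟨K, hK⟩ := hu
  obtain ⟨L, hL⟩ := hF
  refine ⟨max K L, fun T u F h h0 t ht => ⟨?_, ?_⟩⟩
  · exact ((NN_mono (by omega) _).trans (hK ⟨T, u, F, h, h0, t, ht⟩).2).trans (le_max_left _ _)
  · exact ((NN_mono (by omega) _).trans (hL ⟨T, u, F, h, h0, t, ht⟩).2).trans (le_max_right _ _)

end Pool.Agent.helper68.S2
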